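import Pool.Agent.N217.EU.Stm

set_option autoImplicit false

/-! Project EU, AVO: numbers near a rational number which avoids the obstacles avoid them too. -/

namespace Pool.Agent.N217.EU.AVO

open Set Pool.Agent.N217.EU

theorem sep (A k s δ ε₀ : ℝ) (hε : ε₀ ≤ 1 / 2) (hA : 3 / 2 ≤ A) (hk : 0 < k)
    (hAk : 32 * A ≤ k ^ 2) (hs : 0 ≤ s) (hs2 : 2 * A ≤ s ^ 2) (hδ : δ ≤ 4 * A / k) :
    ε₀ ≤ s - δ := by
  set h := √(A / 2) with hh
  have h0 : 0 ≤ h := Real.sqrt_nonneg _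
  have h2 : h ^ 2 = A / 2 := Real.sq_sqrt (by linarith)
  have e1 : 2 * h ≤ s := by
    by_contra hc
    push Not at hc
    nlinarith
  have e2 : 4 * A / k ≤ h := by
    have h3 : 0 ≤ 4 * A / k := by positivity
    have h4 : (4 * A / k) ^ 2 ≤ h ^ 2 := by
      rw [h2, div_pow, div_le_iff₀ (by positivity)]
      nlinarith
    exact (pow_le_pow_iff_left₀ h3 h0 (by norm_num)).1 h4
  have e3 : 1 / 2 ≤ h := by
    by_contra hc
    push Not at hc
    nlinarith
  linarith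

theorem form (a b p q : ℤ) (hq : 1 ≤ q) (h : Ob a b) :
    4 * a - 3 * q ^ 2 ≤ (2 * a * p + b * q) ^ 2 := by
  obtain ⟨ha, c, hc⟩ := h
  have h1 : 4 * a * (a * p ^ 2 + b * p * q + c * q ^ 2)
      = (2 * a * p + b * q) ^ 2 + 3 * q ^ 2 := by
    have : 4 * a * (a * p ^ 2 + b * p * q + c * q ^ 2)
      = (4 * a * c) * q ^ 2 + (4 * a ^ 2 * p ^ 2 + 4 * a * b * p * q) := by ring
    rw [this, ← hc]
    ring
  have h2 : 0 < 4 * a * (a * p ^ 2 + b * p * q + c * q ^ 2) := by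
    rw [h1]
    positivity
  have h3 : 0 < a * p ^ 2 + b * p * q + c * q ^ 2 := by
    by_contra hn
    push Not at hn
    nlinarith
  nlinarith

end Pool.Agent.N217.EU.AVO

namespace Pool.Agent.N217.EU

theorem t_avo : S_AVO := by
  intro T k ε₀ p q hε hε1 hq _ hk hav x hx a b hab hTa hak
  have hq1 : (1 : ℝ) ≤ q := by exact_mod_cast hq
  have hq0 : (0 : ℝ) < q := by linarith
  have hQ : (0 : ℝ) < (q : ℝ) ^ 2 := by positivity
  have ha1 : (1 : ℝ) ≤ a := by exact_mod_cast hab.1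
  have hk0 : 0 < k := lt_of_lt_of_le (by positivity) hk
  have hk6 : 6 ≤ ε₀ * k := by
    rw [div_le_iff₀ hε] at hk
    linarith
  have h1 := hav a b hab hTa
  set r : ℝ := 2 * a * ((p : ℝ) / q) + b with hr
  have e1 : 2 * a * x + b = r + 2 * a * (x - p / q) := by rw [hr]; ring
  have e2 : |2 * a * (x - p / q)| ≤ 4 * (a / (q : ℝ) ^ 2) / k := by
    rw [abs_mul, abs_of_pos (by positivity : (0 : ℝ) < 2 * a)]
    calc 2 * (a : ℝ) * |x - p / q| ≤ 2 * a * (2 / (k * (q : ℝ) ^ 2)) := by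
          gcongr
      _ = _ := by field_simp; ring
  have e3 : |r| - |2 * a * (x - p / q)| ≤ |2 * a * x + b| := by
    rw [e1]
    have := abs_sub_abs_le_abs_sub r (-(2 * a * (x - p / q)))
    rwa [abs_neg, sub_neg_eq_add] at this
  refine le_trans ?_ e3
  rcases le_or_gt (4 * (a / (q : ℝ) ^ 2) / k) ε₀ with hc | hc
  · linarith
  · have hA : 3 / 2 ≤ (a : ℝ) / (q : ℝ) ^ 2 := by
      rw [lt_div_iff₀ hk0] at hc
      linarith
    refine AVO.sep _ k _ _ ε₀ hε1 hA hk0 ?_ (abs_nonneg _) ?_ e2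
    · rw [← mul_div_assoc, div_le_iff₀ hQ]
      linarith
    · rw [sq_abs]
      have h2 : r ^ 2 = (2 * a * p + b * q) ^ 2 / (q : ℝ) ^ 2 := by
        rw [hr]
        field_simp
      have h3 : (4 * a - 3 * q ^ 2 : ℝ) ≤ (2 * a * p + b * q) ^ 2 := by
        exact_mod_cast AVO.form a b p q hq hab
      rw [le_div_iff₀ hQ] at hA
      rw [h2, le_div_iff₀ hQ, mul_assoc, div_mul_cancel₀ _ hQ.ne']
      linarith

end Pool.Agent.N217.EU
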