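import Pool.Agent.N217.EU.Stm

/-!
# Project EU: the dimension of a Cantor set given by a tree
-/

set_option autoImplicit false

open Set

namespace Pool.Agent.N217.EU.Can

variable {R M : ℕ} {L : ℕ → ℕ} {T : ℕ → ℝ → Prop}

/-- The branching hypothesis: each node has `M` pairwise separated children. -/
def Branch (R M : ℕ) (L : ℕ → ℕ) (T : ℕ → ℝ → Prop) : Prop :=
  ∀ n y, T n y → ∃ f : Fin M → ℝ,
    (∀ e, T (n + 1) (f e) ∧ Iv R (L (n + 1)) (f e) ⊆ Iv R (L n) y) ∧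
    ∀ e e', e ≠ e' → ∀ x ∈ Iv R (L (n + 1)) (f e), ∀ x' ∈ Iv R (L (n + 1)) (f e'),
      1 / 64 / (R : ℝ) ^ (L n + 1) ≤ |x - x'|

/-- The chosen children of a node. -/
noncomputable def ch (hb : Branch R M L T) (k : ℕ) (x : {y : ℝ // T k y}) (e : Fin M) :
    {y : ℝ // T (k + 1) y} :=
  ⟨(hb k x.1 x.2).choose e, ((hb k x.1 x.2).choose_spec.1 e).1⟩

lemma ch_child (hb : Branch R M L T) (k : ℕ) (x : {y : ℝ // T k y}) (e : Fin M) :
    Iv R (L (k + 1)) (ch hb k x e).1 ⊆ Iv R (L k) x.1 := ((hb k x.1 x.2).choose_spec.1 e).2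

lemma ch_sep (hb : Branch R M L T) (k : ℕ) (x : {y : ℝ // T k y}) {e e' : Fin M} (h : e ≠ e') :
    ∀ u ∈ Iv R (L (k + 1)) (ch hb k x e).1, ∀ v ∈ Iv R (L (k + 1)) (ch hb k x e').1,
      1 / 64 / (R : ℝ) ^ (L k + 1) ≤ |u - v| := (hb k x.1 x.2).choose_spec.2 e e' h

/-- The node reached by following a sequence of choices. -/
noncomputable def node {y₀ : ℝ} (h0 : T 0 y₀) (hb : Branch R M L T) (d : ℕ → Fin M) :
    (k : ℕ) → {y : ℝ // T k y}
  | 0 => ⟨y₀, h0⟩
  | k + 1 => ch hb k (node h0 hb d k) (d k)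

lemma node_succ {y₀ : ℝ} (h0 : T 0 y₀) (hb : Branch R M L T) (d : ℕ → Fin M) (k : ℕ) :
    node h0 hb d (k + 1) = ch hb k (node h0 hb d k) (d k) := rfl

lemma node_child {y₀ : ℝ} (h0 : T 0 y₀) (hb : Branch R M L T) (d : ℕ → Fin M) (k : ℕ) :
    Iv R (L (k + 1)) (node h0 hb d (k + 1)).1 ⊆ Iv R (L k) (node h0 hb d k).1 :=
  ch_child hb k _ _

lemma node_congr {y₀ : ℝ} (h0 : T 0 y₀) (hb : Branch R M L T) {d d' : ℕ → Fin M} {n : ℕ}
    (h : ∀ i < n, d i = d' i) : node h0 hb d n = node h0 hb d' n := by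
  induction n with
  | zero => rfl
  | succ n ih =>
    have h1 := ih (fun i hi => h i (Nat.lt_succ_of_lt hi))
    have h2 := h n (Nat.lt_succ_self n)
    rw [node_succ, node_succ, h1, h2]

lemma node_sep {y₀ : ℝ} (h0 : T 0 y₀) (hb : Branch R M L T) {d d' : ℕ → Fin M} {n : ℕ}
    (h : ∀ i < n, d i = d' i) (hn : d n ≠ d' n) :
    ∀ u ∈ Iv R (L (n + 1)) (node h0 hb d (n + 1)).1,
      ∀ v ∈ Iv R (L (n + 1)) (node h0 hb d' (n + 1)).1,
      1 / 64 / (R : ℝ) ^ (L n + 1) ≤ |u - v| := by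
  have h1 := node_congr h0 hb h
  rw [node_succ, node_succ, ← h1]
  exact ch_sep hb n _ hn

lemma exists_point {y₀ : ℝ} (h0 : T 0 y₀) (hb : Branch R M L T) (d : ℕ → Fin M) :
    ∃ z : ℝ, ∀ k, z ∈ Iv R (L k) (node h0 hb d k).1 := by
  have := IsCompact.nonempty_iInter_of_sequence_nonempty_isCompact_isClosed
    (fun k => Iv R (L k) (node h0 hb d k).1) (fun k => node_child h0 hb d k)
    (fun k => Set.nonempty_Icc.2 (by
      have : (0 : ℝ) ≤ 1 / 64 / (R : ℝ) ^ (L k) := by positivity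
      linarith)) isCompact_Icc (fun k => isClosed_Icc)
  obtain ⟨z, hz⟩ := this
  exact ⟨z, fun k => Set.mem_iInter.1 hz k⟩

theorem le_dimH_of_tree {y₀ : ℝ} {s C : NNReal} (hs : 0 < s) (hR : 2 ≤ R) (hM : 2 ≤ M)
    (h0 : T 0 y₀) (hb : Branch R M L T)
    (hC : ∀ n, ((M : ℝ) ^ n)⁻¹ ≤ C * (1 / 64 / (R : ℝ) ^ (L n + 1)) ^ (s : ℝ)) :
    (s : ENNReal) ≤ dimH {x : ℝ | ∃ y : ℕ → ℝ, ∀ n, T n (y n) ∧ x ∈ Iv R (L n) (y n)} := by
  classical
  have hR0 : 0 < R := by omega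
  have hRr : (0 : ℝ) < R := by exact_mod_cast hR0
  choose p hp using exists_point h0 hb
  -- separation
  have key : ∀ d d' : ℕ → Fin M, d ≠ d' → ∃ n : ℕ,
      |Real.ofDigits d - Real.ofDigits d'| ≤ ((M : ℝ) ^ n)⁻¹ ∧
      1 / 64 / (R : ℝ) ^ (L n + 1) ≤ dist (p d) (p d') := by
    intro d d' hdd
    have hex : ∃ n, d n ≠ d' n := Function.ne_iff.1 hdd
    refine ⟨Nat.find hex, Real.abs_ofDigits_sub_ofDigits_le (fun i hi => ?_), ?_⟩
    · have := Nat.find_min hex hi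
      push Not at this
      exact this
    · rw [Real.dist_eq]
      refine node_sep h0 hb (fun i hi => ?_) (Nat.find_spec hex) _ (hp d _) _ (hp d' _)
      have := Nat.find_min hex hi
      push Not at this
      exact this
  have hinj : Function.Injective p := by
    intro d d' h
    by_contra hne
    obtain ⟨n, -, h2⟩ := key d d' hne
    rw [h, dist_self] at h2
    have : 0 < 1 / 64 / (R : ℝ) ^ (L n + 1) := by positivity
    linarith
  have hMr : (0 : ℝ) < M := by exact_mod_cast (by omega : 0 < M)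
  have hne : Nonempty (ℕ → Fin M) := ⟨fun _ => ⟨0, by omega⟩⟩
  set g : ℝ → ℝ := fun z => Real.ofDigits (Function.invFun p z) with hg
  have hgp : ∀ d, g (p d) = Real.ofDigits d := by
    intro d
    simp only [hg]
    rw [Function.leftInverse_invFun hinj d]
  have hbound : ∀ d d' : ℕ → Fin M,
      |Real.ofDigits d - Real.ofDigits d'| ≤ C * (dist (p d) (p d')) ^ (s : ℝ) := by
    intro d d'
    by_cases hdd : d = d'
    · subst hdd
      simp only [sub_self, abs_zero]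
      positivity
    · obtain ⟨n, h1, h2⟩ := key d d' hdd
      refine (h1.trans (hC n)).trans ?_
      exact mul_le_mul_of_nonneg_left (Real.rpow_le_rpow (by positivity) h2 (by positivity))
        (by positivity)
  have hhold : HolderOnWith C s g (Set.range p) := by
    rintro _ ⟨d, rfl⟩ _ ⟨d', rfl⟩
    rw [hgp, hgp, edist_dist, edist_dist, Real.dist_eq]
    have h1 := hbound d d'
    calc ENNReal.ofReal |Real.ofDigits d - Real.ofDigits d'|
        ≤ ENNReal.ofReal (C * (dist (p d) (p d')) ^ (s : ℝ)) := ENNReal.ofReal_le_ofReal h1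
      _ = (C : ENNReal) * ENNReal.ofReal (dist (p d) (p d')) ^ (s : ℝ) := by
          rw [ENNReal.ofReal_mul (by positivity),
            ENNReal.ofReal_rpow_of_nonneg dist_nonneg (by positivity)]
          congr 1
          simp
  have h1 : dimH (g '' Set.range p) ≤ dimH (Set.range p) / (s : ENNReal) :=
    hhold.dimH_image_le hs
  have h2 : Set.Icc (0 : ℝ) 1 ⊆ g '' Set.range p := by
    intro t ht
    obtain ⟨d, -, hd⟩ := Real.ofDigits_SurjOn (b := M) (by omega) ht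
    exact ⟨p d, ⟨d, rfl⟩, by rw [hgp, hd]⟩
  have h3 : dimH (Set.Icc (0 : ℝ) 1) = 1 := by
    have := Real.dimH_of_nonempty_interior (E := ℝ) (s := Set.Icc (0 : ℝ) 1)
      (by rw [interior_Icc]; exact ⟨1 / 2, by norm_num, by norm_num⟩)
    simpa using this
  have h4 : (1 : ENNReal) ≤ dimH (Set.range p) / (s : ENNReal) := by
    rw [← h3]; exact (dimH_mono h2).trans h1
  have h5 : Set.range p ⊆ {x : ℝ | ∃ y : ℕ → ℝ, ∀ n, T n (y n) ∧ x ∈ Iv R (L n) (y n)} := by
    rintro _ ⟨d, rfl⟩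
    exact ⟨fun k => (node h0 hb d k).1, fun k => ⟨(node h0 hb d k).2, hp d k⟩⟩
  refine le_trans ?_ (dimH_mono h5)
  have hδ0 : (s : ENNReal) ≠ 0 := by exact_mod_cast hs.ne'
  have := (ENNReal.le_div_iff_mul_le (Or.inl hδ0) (Or.inl ENNReal.coe_ne_top)).1 h4
  simpa using this

end Pool.Agent.N217.EU.Can

namespace Pool.Agent.N217.EU

/-- CAN: the dimension of a Cantor set. -/
theorem t_can : S_CAN := by
  intro R M L T y₀ s C hR hM hs _ _ h0 hb hC
  exact Can.le_dimH_of_tree hs hR hM h0 hb hC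

end Pool.Agent.N217.EU
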