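import Mathlib

/-!
# Project EU: Euclidean Dirichlet improvable numbers which are not badly approximable, statements

`MP_613544_nt`, Q1: the Hausdorff dimension of `DI₂ \ BA` is `1`.
-/

set_option autoImplicit false

namespace Pool.Agent.N217.EU

open Set

noncomputable section

/-- The set `DI₂` of the problem. -/
def DI2 : Set ℝ := {x | ∃ c : ℝ, 0 < c ∧ c < 1 ∧ ∃ t₀ : ℝ, ∀ t : ℝ, t₀ ≤ t → 0 < t →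
  ∃ p q : ℤ, (p, q) ≠ (0, 0) ∧ (t * (p + q * x) / c) ^ 2 + (q / t) ^ 2 ≤ 2 / √3}

/-- The badly approximable numbers. -/
def BA : Set ℝ := {x | ∃ δ : ℝ, 0 < δ ∧ ∀ p q : ℤ, q ≠ 0 → δ ≤ |q * x - p| * |(q : ℝ)|}

/-- `(a, b)` are the first two coefficients of a positive integral binary quadratic form
`a X² + b X Y + c Y²` of discriminant `-3`. -/
def Ob (a b : ℤ) : Prop := 1 ≤ a ∧ 4 * a ∣ b ^ 2 + 3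

/-- the closed interval of level `l` with left end point `y` -/
def Iv (R l : ℕ) (y : ℝ) : Set ℝ := Icc y (y + 1 / 64 / (R : ℝ) ^ l)

/-- the invariant of the intervals of the construction -/
structure Inv (ε₁ ε₂ : ℝ) (R l lam : ℕ) (ξ y : ℝ) : Prop where
  ob : ∀ a b : ℤ, Ob a b → (a : ℝ) < (R : ℝ) ^ l → ∀ x ∈ Iv R l y, ε₂ ≤ |2 * a * x + b|
  lo : ∀ p q : ℤ, 1 ≤ q → (q : ℝ) ^ 2 < (R : ℝ) ^ lam → ∀ x ∈ Iv R l y,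
    ξ / (q : ℝ) ^ 2 ≤ |x - p / q|
  hi : ∀ p q : ℤ, 1 ≤ q → (R : ℝ) ^ lam ≤ (q : ℝ) ^ 2 → (q : ℝ) ^ 2 < (R : ℝ) ^ l →
    ∀ x ∈ Iv R l y, ε₁ / (q : ℝ) ^ 2 ≤ |x - p / q|

/-- SP: the points `- b / (2 a)` with `A ≤ a < 2 A` are separated. -/
def S_SP : Prop :=
  ∀ (A : ℝ) (a b a' b' : ℤ), 0 < A → Ob a b → Ob a' b' → A ≤ a → (a : ℝ) < 2 * A → A ≤ a' →
    (a' : ℝ) < 2 * A → (a, b) ≠ (a', b') →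
    1 / (2 * A) ≤ |-(b : ℝ) / (2 * a) - (-(b' : ℝ) / (2 * a'))|

/-- CNT: number of the subintervals which meet one of the intervals with radius `ρ / A` about the
points of a `1 / (2 A)` separated set. -/
def S_CNT : Prop :=
  ∀ (P : Set ℝ) (A ρ T y : ℝ) (R : ℕ), 0 < A → 0 < ρ → ρ ≤ 1 / 4 → 0 < T → 1 ≤ R →
    (∀ u ∈ P, ∀ v ∈ P, u ≠ v → 1 / (2 * A) ≤ |u - v|) →
    (({i : ℕ | i < R ∧ ∃ u ∈ P, ∃ x : ℝ, y + i * (1 / 64 / (T * R)) ≤ x ∧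
      x ≤ y + (i + 1) * (1 / 64 / (T * R)) ∧ |x - u| < ρ / A}.ncard : ℕ) : ℝ) ≤
      (A / (32 * T) + 2) * (128 * ρ * R * T / A + 2)

/-- GEN: the generic step. -/
def S_GEN : Prop :=
  ∀ r : ℕ, 10 ≤ r → ∃ ε₀ : ℝ, 0 < ε₀ ∧ ∀ ε₁ ε₂ : ℝ, 0 < ε₁ → ε₁ ≤ ε₀ → 0 < ε₂ → ε₂ ≤ ε₀ →
    ∀ (l lam : ℕ) (ξ y : ℝ), lam ≤ l → Inv ε₁ ε₂ (2 ^ r) l lam ξ y →
    ∃ f : Fin (2 ^ (r - 2)) → ℝ,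
      (∀ e, Inv ε₁ ε₂ (2 ^ r) (l + 1) lam ξ (f e) ∧ Iv (2 ^ r) (l + 1) (f e) ⊆ Iv (2 ^ r) l y) ∧
      ∀ e e', e ≠ e' → ∀ x ∈ Iv (2 ^ r) (l + 1) (f e), ∀ x' ∈ Iv (2 ^ r) (l + 1) (f e'),
        1 / 64 / ((2 ^ r : ℕ) : ℝ) ^ (l + 1) ≤ |x - x'|

/-- DIR: a rational number in the middle of an interval. -/
def S_DIR : Prop :=
  ∀ (ε₁ ε₂ : ℝ) (R l lam : ℕ) (ξ y : ℝ), 0 < ε₁ → ε₁ ≤ 1 → 2 ≤ R → 0 < ξ →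
    (R : ℝ) ^ lam ≤ ξ ^ 2 * (R : ℝ) ^ l → Inv ε₁ ε₂ R l lam ξ y →
    ∃ p q : ℤ, 1 ≤ q ∧ IsCoprime p q ∧ (R : ℝ) ^ l ≤ (q : ℝ) ^ 2 ∧
      (q : ℝ) ^ 2 ≤ (512 / ε₁) ^ 2 * (R : ℝ) ^ l ∧
      |y + 1 / 128 / (R : ℝ) ^ l - p / q| ≤ 1 / 256 / (R : ℝ) ^ l

/-- CND: a rational number near a given one which avoids all obstacles. -/
def S_CND : Prop :=
  ∀ C : ℝ, 1 ≤ C → ∃ C' ε₀ : ℝ, 1 ≤ C' ∧ 0 < ε₀ ∧ ε₀ ≤ 1 / 2 ∧ ∀ (T : ℝ) (p₀ q₀ : ℤ), 1 ≤ T →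
    1 ≤ q₀ → IsCoprime p₀ q₀ → T ≤ (q₀ : ℝ) ^ 2 → (q₀ : ℝ) ^ 2 ≤ C * T →
    ∃ p q : ℤ, 1 ≤ q ∧ IsCoprime p q ∧ T ≤ (q : ℝ) ^ 2 ∧ (q : ℝ) ^ 2 ≤ C' * T ∧
      |(p : ℝ) / q - p₀ / q₀| ≤ 1 / 512 / T ∧
      ∀ a b : ℤ, Ob a b → T ≤ a → 2 * ε₀ ≤ |2 * a * ((p : ℝ) / q) + b|

/-- AVO: the numbers near such a rational number avoid the obstacles. -/
def S_AVO : Prop :=
  ∀ (T k ε₀ : ℝ) (p q : ℤ), 0 < ε₀ → ε₀ ≤ 1 / 2 → 1 ≤ q → IsCoprime p q → 6 / ε₀ ≤ k →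
    (∀ a b : ℤ, Ob a b → T ≤ a → 2 * ε₀ ≤ |2 * a * ((p : ℝ) / q) + b|) →
    ∀ x : ℝ, |x - p / q| ≤ 2 / (k * (q : ℝ) ^ 2) → ∀ a b : ℤ, Ob a b → T ≤ a →
      (a : ℝ) ≤ k ^ 2 * (q : ℝ) ^ 2 / 32 → ε₀ ≤ |2 * a * x + b|

/-- SPE: the special step. -/
def S_SPE : Prop :=
  ∀ R : ℕ, 2 ≤ R → ∀ ε₁ : ℝ, 0 < ε₁ → ε₁ ≤ 1 → ∃ ε₀ : ℝ, 0 < ε₀ ∧ ∀ k₀ : ℕ,
    ∃ (m : ℕ) (ξ' : ℝ), 1 ≤ m ∧ 0 < ξ' ∧ ∀ ε₂ : ℝ, 0 < ε₂ → ε₂ ≤ ε₀ → ∀ (l lam : ℕ) (ξ y : ℝ),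
      lam ≤ l → 0 < ξ → (R : ℝ) ^ lam ≤ ξ ^ 2 * (R : ℝ) ^ l → Inv ε₁ ε₂ R l lam ξ y →
      ∃ y' : ℝ, Inv ε₁ ε₂ R (l + m) (l + m) (min ξ ξ') y' ∧ Iv R (l + m) y' ⊆ Iv R l y ∧
        ∃ p q : ℤ, 1 ≤ q ∧ ∀ x ∈ Iv R (l + m) y', |q * x - p| * (q : ℝ) ≤ 1 / (k₀ + 1)

/-- CAN: the dimension of a Cantor set. -/
def S_CAN : Prop :=
  ∀ (R M : ℕ) (L : ℕ → ℕ) (T : ℕ → ℝ → Prop) (y₀ : ℝ) (s C : NNReal), 2 ≤ R → 2 ≤ M → 0 < s →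
    L 0 = 0 → StrictMono L → T 0 y₀ →
    (∀ n y, T n y → ∃ f : Fin M → ℝ,
      (∀ e, T (n + 1) (f e) ∧ Iv R (L (n + 1)) (f e) ⊆ Iv R (L n) y) ∧
      ∀ e e', e ≠ e' → ∀ x ∈ Iv R (L (n + 1)) (f e), ∀ x' ∈ Iv R (L (n + 1)) (f e'),
        1 / 64 / (R : ℝ) ^ (L n + 1) ≤ |x - x'|) →
    (∀ n, ((M : ℝ) ^ n)⁻¹ ≤ C * (1 / 64 / (R : ℝ) ^ (L n + 1)) ^ (s : ℝ)) →
    (s : ENNReal) ≤ dimH {x : ℝ | ∃ y : ℕ → ℝ, ∀ n, T n (y n) ∧ x ∈ Iv R (L n) (y n)}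

/-- RED: reduction of positive definite binary forms `A X² + B X Y + C Y²`. -/
def S_RED : Prop :=
  ∀ A B C : ℝ, 0 < A → B ^ 2 < 4 * A * C →
    ∃ p₁ q₁ p₂ q₂ : ℤ, (p₁ * q₂ - p₂ * q₁ = 1 ∨ p₁ * q₂ - p₂ * q₁ = -1) ∧
      0 ≤ 2 * A * p₁ * p₂ + B * (p₁ * q₂ + p₂ * q₁) + 2 * C * q₁ * q₂ ∧
      2 * A * p₁ * p₂ + B * (p₁ * q₂ + p₂ * q₁) + 2 * C * q₁ * q₂ ≤
        A * (p₁ : ℝ) ^ 2 + B * p₁ * q₁ + C * (q₁ : ℝ) ^ 2 ∧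
      A * (p₁ : ℝ) ^ 2 + B * p₁ * q₁ + C * (q₁ : ℝ) ^ 2 ≤
        A * (p₂ : ℝ) ^ 2 + B * p₂ * q₂ + C * (q₂ : ℝ) ^ 2

/-- DI: the numbers which avoid all obstacles are in `DI₂`. -/
def S_DI : Prop :=
  ∀ x ε : ℝ, 0 < ε → (∀ a b : ℤ, Ob a b → ε ≤ |2 * a * x + b|) → x ∈ DI2

/-- FIN: the result -/
def S_FIN : Prop := dimH (DI2 \ BA) = 1

end

end Pool.Agent.N217.EU
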