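import Mathlib
import Pool.Agent.N217.EU.Stm

set_option autoImplicit false

/-!
# Project EU (helper217), leaf CND: a rational number near a given one avoiding all obstacles
-/

namespace Pool.Agent.N217.EU.CNDaux

open Finset Pool.Agent.N217.EU

theorem dyadic (T a : ℝ) (hT : T ≤ a) : ∀ n : ℕ, a < 2 ^ n * T →
    ∃ i : ℕ, i < n ∧ 2 ^ i * T ≤ a ∧ a < 2 ^ (i + 1) * T := by
  intro n
  induction n with
  | zero =>
    intro h
    rw [pow_zero, one_mul] at h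
    exact absurd h (not_lt.2 hT)
  | succ n ih =>
    intro h
    by_cases h1 : a < 2 ^ n * T
    · obtain ⟨i, h2, h3⟩ := ih h1
      exact ⟨i, by omega, h3⟩
    · exact ⟨n, by omega, not_lt.1 h1, h⟩

/-- an obstacle hitting `p / q` is not too big -/
theorem bound (a b p q p₀ q₀ : ℤ) (J ε : ℝ) (hJ : 1 ≤ J) (hε : 0 < ε) (hε' : ε ≤ 1 / 4)
    (hOb : Ob a b) (hdet : p₀ * q - p * q₀ = 1) (hq₀ : 1 ≤ q₀) (hq : 1 ≤ q)
    (hq1 : J * q₀ ≤ q) (hq2 : (q : ℝ) ≤ 3 * J * q₀) (hhit : |2 * a * ((p : ℝ) / q) + b| < 2 * ε) :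
    (a : ℝ) < 144 * (q₀ : ℝ) ^ 2 := by
  obtain ⟨ha, c, hc⟩ := hOb
  have hN4 : 4 * a * (a * p ^ 2 + b * p * q + c * q ^ 2) = (2 * a * p + b * q) ^ 2 + 3 * q ^ 2 := by
    linear_combination (-q ^ 2) * hc
  have hN4' : 4 * a * (a * p₀ ^ 2 + b * p₀ * q₀ + c * q₀ ^ 2) =
      (2 * a * p₀ + b * q₀) ^ 2 + 3 * q₀ ^ 2 := by
    linear_combination (-q₀ ^ 2) * hc
  have hB : (2 * a * p * p₀ + b * (p * q₀ + p₀ * q) + 2 * c * q * q₀) ^ 2 + 3 =
      4 * (a * p ^ 2 + b * p * q + c * q ^ 2) * (a * p₀ ^ 2 + b * p₀ * q₀ + c * q₀ ^ 2) := by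
    linear_combination (p * q₀ - p₀ * q) ^ 2 * hc + 3 * ((p * q₀ - p₀ * q) - 1) * hdet
  have he : 2 * a * p + b * q = q * (2 * a * p * p₀ + b * (p * q₀ + p₀ * q) + 2 * c * q * q₀) -
      2 * (a * p ^ 2 + b * p * q + c * q ^ 2) * q₀ := by
    linear_combination (-(2 * a * p + b * q)) * hdet
  generalize a * p ^ 2 + b * p * q + c * q ^ 2 = N at hN4 hB he
  generalize a * p₀ ^ 2 + b * p₀ * q₀ + c * q₀ ^ 2 = N' at hN4' hB
  generalize 2 * a * p * p₀ + b * (p * q₀ + p₀ * q) + 2 * c * q * q₀ = B at hB he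
  have hN : 1 ≤ N := by
    by_contra h
    have h1 : N ≤ 0 := by omega
    have h2 : 4 * a * N ≤ 0 := mul_nonpos_of_nonneg_of_nonpos (by omega) h1
    nlinarith [sq_nonneg (2 * a * p + b * q), sq_nonneg q]
  have hN' : 1 ≤ N' := by
    by_contra h
    have h1 : N' ≤ 0 := by omega
    have h2 : 4 * a * N' ≤ 0 := mul_nonpos_of_nonneg_of_nonpos (by omega) h1
    nlinarith [sq_nonneg (2 * a * p₀ + b * q₀), sq_nonneg q₀]
  have hBN : N ≤ B ^ 2 := by
    have h1 : 0 ≤ N * (N' - 1) := mul_nonneg (by omega) (by omega)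
    nlinarith
  -- real numbers
  have hqr : (1 : ℝ) ≤ q := by exact_mod_cast hq
  have hq0r : (1 : ℝ) ≤ q₀ := by exact_mod_cast hq₀
  have har : (1 : ℝ) ≤ a := by exact_mod_cast ha
  have hNr : (1 : ℝ) ≤ N := by exact_mod_cast hN
  have hBNr : (N : ℝ) ≤ (B : ℝ) ^ 2 := by exact_mod_cast hBN
  have hN4r : 4 * (a : ℝ) * N = (2 * a * p + b * q) ^ 2 + 3 * (q : ℝ) ^ 2 := by exact_mod_cast hN4
  have her : 2 * (a : ℝ) * p + b * q = q * B - 2 * N * q₀ := by exact_mod_cast he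
  have he1 : |2 * (a : ℝ) * p + b * q| < 2 * ε * q := by
    have h1 : 2 * (a : ℝ) * p + b * q = (2 * a * ((p : ℝ) / q) + b) * q := by field_simp
    rw [h1, abs_mul, abs_of_pos (show (0 : ℝ) < q by linarith)]
    exact mul_lt_mul_of_pos_right hhit (by linarith)
  have hβ0 : 0 ≤ |(B : ℝ)| := abs_nonneg _
  have hβ2 : |(B : ℝ)| ^ 2 = (B : ℝ) ^ 2 := sq_abs _
  have hJβ : J * |(B : ℝ)| < 2 * ε * J + 2 * N := by
    have h1 : (q : ℝ) * |(B : ℝ)| < 2 * ε * q + 2 * N * q₀ := by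
      have h2 : (q : ℝ) * B = (2 * a * p + b * q) + 2 * N * q₀ := by linarith
      have h3 : (q : ℝ) * |(B : ℝ)| = |(q : ℝ) * B| := by
        rw [abs_mul, abs_of_pos (show (0 : ℝ) < q by linarith)]
      rw [h3, h2]
      refine lt_of_le_of_lt (abs_add_le _ _) ?_
      rw [abs_of_nonneg (show (0 : ℝ) ≤ 2 * N * q₀ by positivity)]
      linarith
    have h2 : (q : ℝ) * (J * |(B : ℝ)|) < q * (2 * ε * J + 2 * N) := by
      calc (q : ℝ) * (J * |(B : ℝ)|) = J * (q * |(B : ℝ)|) := by ring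
        _ < J * (2 * ε * q + 2 * N * q₀) := mul_lt_mul_of_pos_left h1 (by linarith)
        _ = 2 * ε * J * q + 2 * N * (J * q₀) := by ring
        _ ≤ 2 * ε * J * q + 2 * N * q := by
          have := mul_le_mul_of_nonneg_left hq1 (show (0 : ℝ) ≤ 2 * N by linarith)
          linarith
        _ = q * (2 * ε * J + 2 * N) := by ring
    exact lt_of_mul_lt_mul_left h2 (by linarith)
  have h16 : J ^ 2 < 16 * (N : ℝ) := by
    by_contra h
    push Not at h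
    have hβ1 : 1 ≤ |(B : ℝ)| := by
      by_contra h1
      push Not at h1
      nlinarith
    have h4 : 4 * (N : ℝ) ≤ J * |(B : ℝ)| := by
      have h5 : (4 * (N : ℝ)) ^ 2 ≤ (J * |(B : ℝ)|) ^ 2 := by
        calc (4 * (N : ℝ)) ^ 2 = (16 * N) * N := by ring
          _ ≤ J ^ 2 * (B : ℝ) ^ 2 :=
            mul_le_mul h hBNr (by linarith) (by positivity)
          _ = (J * |(B : ℝ)|) ^ 2 := by rw [mul_pow, hβ2]
      exact le_of_sq_le_sq h5 (by positivity)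
    have h6 : J * |(B : ℝ)| < J * (4 * ε) := by linarith
    have h7 : |(B : ℝ)| < 4 * ε := lt_of_mul_lt_mul_left h6 (by linarith)
    linarith
  have h4a : (a : ℝ) * N < (q : ℝ) ^ 2 := by
    have h5 : (2 * (a : ℝ) * p + b * q) ^ 2 < (2 * ε * q) ^ 2 := by
      rw [← sq_abs (2 * (a : ℝ) * p + b * q)]
      exact pow_lt_pow_left₀ he1 (abs_nonneg _) (by norm_num)
    have h6 : (2 * ε * (q : ℝ)) ^ 2 ≤ (q : ℝ) ^ 2 := by
      have h7 : 2 * ε * (q : ℝ) ≤ q := by nlinarith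
      exact pow_le_pow_left₀ (by positivity) h7 2
    linarith
  have h8 : (a : ℝ) * J ^ 2 < 144 * (q₀ : ℝ) ^ 2 * J ^ 2 := by
    have h9 : (q : ℝ) ^ 2 ≤ (3 * J * q₀) ^ 2 := pow_le_pow_left₀ (by linarith) hq2 2
    have h10 : (a : ℝ) * J ^ 2 < a * (16 * N) := mul_lt_mul_of_pos_left h16 (by linarith)
    calc (a : ℝ) * J ^ 2 < a * (16 * N) := h10
      _ = 16 * (a * N) := by ring
      _ ≤ 16 * (3 * J * q₀) ^ 2 := by linarith
      _ = 144 * (q₀ : ℝ) ^ 2 * J ^ 2 := by ring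
  exact lt_of_mul_lt_mul_right h8 (by positivity)

theorem floor_close {x y : ℝ} (hx : 0 ≤ x) (hy : 0 ≤ y) (h : ⌊x⌋₊ = ⌊y⌋₊) : |x - y| < 1 := by
  have h1 := Nat.floor_le hx
  have h2 := Nat.floor_le hy
  have h3 := Nat.lt_floor_add_one x
  have h4 := Nat.lt_floor_add_one y
  rw [h] at h1 h3
  rw [abs_lt]
  constructor <;> linarith

end Pool.Agent.N217.EU.CNDaux

namespace Pool.Agent.N217.EU

open Finset CNDaux

theorem t_cnd (h : S_SP) : S_CND := by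
  intro C hC
  obtain ⟨n0, hn0⟩ : ∃ n0 : ℕ, 144 * C ≤ (2 : ℝ) ^ n0 := by
    obtain ⟨n, hn⟩ := pow_unbounded_of_one_lt (144 * C) (show (1 : ℝ) < 2 by norm_num)
    exact ⟨n, hn.le⟩
  obtain ⟨J, hJ⟩ : ∃ J : ℕ, J = 512 + n0 * (4 * 2 ^ n0) := ⟨_, rfl⟩
  have hJ512 : 512 ≤ J := by omega
  have hJr : (512 : ℝ) ≤ J := by exact_mod_cast hJ512
  obtain ⟨ε, hε⟩ : ∃ ε : ℝ, ε = 1 / (8 * (2 * (J : ℝ) + 1) ^ 2 * C) := ⟨_, rfl⟩
  have hε0 : 0 < ε := by rw [hε]; positivity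
  have hK1 : (1 : ℝ) ≤ (2 * (J : ℝ) + 1) ^ 2 := by nlinarith
  have hKC : (1 : ℝ) ≤ (2 * (J : ℝ) + 1) ^ 2 * C := by nlinarith
  have hε1 : ε ≤ 1 / 8 := by
    rw [hε]
    apply one_div_le_one_div_of_le (by norm_num)
    nlinarith
  refine ⟨(2 * (J : ℝ) + 1) ^ 2 * C, ε, hKC, hε0, by linarith, ?_⟩
  intro T p₀ q₀ hT hq₀ hcop hTq hqC
  obtain ⟨u, w, huw⟩ := hcop
  obtain ⟨s₀, r₀, hs0, hs1, hdet⟩ : ∃ s₀ r₀ : ℤ, 0 ≤ s₀ ∧ s₀ ≤ q₀ ∧ p₀ * s₀ - r₀ * q₀ = 1 := by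
    refine ⟨u % q₀, -w - p₀ * (u / q₀), Int.emod_nonneg _ (by omega),
      (Int.emod_lt_of_pos _ (by omega)).le, ?_⟩
    have := Int.emod_add_mul_ediv u q₀
    linear_combination huw + p₀ * this
  by_contra hcon
  push Not at hcon
  have hT0 : 0 < T := by linarith
  have hq0r : (1 : ℝ) ≤ q₀ := by exact_mod_cast hq₀
  have hs0r : (0 : ℝ) ≤ s₀ := by exact_mod_cast hs0
  have hs1r : (s₀ : ℝ) ≤ q₀ := by exact_mod_cast hs1
  have hdetr : (p₀ : ℝ) * s₀ - r₀ * q₀ = 1 := by exact_mod_cast hdet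
  set P : ℕ → ℤ := fun j => j * p₀ + r₀ with hP
  set Q : ℕ → ℤ := fun j => j * q₀ + s₀ with hQ
  have hPr : ∀ j : ℕ, (P j : ℝ) = j * p₀ + r₀ := by intro j; simp [hP]
  have hQr : ∀ j : ℕ, (Q j : ℝ) = j * q₀ + s₀ := by intro j; simp [hQ]
  have hQ1 : ∀ j ∈ Finset.Icc J (2 * J), (J : ℝ) * q₀ ≤ Q j ∧ (Q j : ℝ) ≤ (2 * J + 1) * q₀ := by
    intro j hj
    rw [Finset.mem_Icc] at hj
    have h1 : (J : ℝ) ≤ j := by exact_mod_cast hj.1
    have h2 : (j : ℝ) ≤ 2 * J := by exact_mod_cast hj.2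
    rw [hQr]
    constructor
    · nlinarith
    · nlinarith
  have hx : ∀ j ∈ Finset.Icc J (2 * J), |(P j : ℝ) / Q j - p₀ / q₀| ≤ 1 / 512 / T := by
    intro j hj
    obtain ⟨h1, h2⟩ := hQ1 j hj
    have h3 : (0 : ℝ) < Q j := by nlinarith
    have h4 : (P j : ℝ) / Q j - p₀ / q₀ = -1 / (Q j * q₀) := by
      rw [div_sub_div _ _ h3.ne' (by linarith)]
      congr 1
      rw [hPr, hQr]
      linear_combination -hdetr
    rw [h4, abs_div, abs_neg, abs_one, abs_of_pos (by positivity), div_div]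
    apply one_div_le_one_div_of_le (by positivity)
    have h5 : (q₀ : ℝ) * (512 * q₀) ≤ q₀ * Q j :=
      mul_le_mul_of_nonneg_left (by nlinarith) (by linarith)
    nlinarith
  have hit : ∀ j ∈ Finset.Icc J (2 * J), ∃ (a b : ℤ) (i : ℕ), Ob a b ∧ T ≤ a ∧
      |2 * (a : ℝ) * ((P j : ℝ) / Q j) + b| < 2 * ε ∧ i < n0 ∧ 2 ^ i * T ≤ a ∧
      (a : ℝ) < 2 ^ (i + 1) * T := by
    intro j hj
    obtain ⟨h1, h2⟩ := hQ1 j hj
    have hQpos : (1 : ℝ) ≤ Q j := by nlinarith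
    have hQint : 1 ≤ Q j := by exact_mod_cast hQpos
    have hd : p₀ * Q j - P j * q₀ = 1 := by
      simp only [hP, hQ]
      linear_combination hdet
    obtain ⟨a, b, hOb, hTa, hab⟩ := hcon (P j) (Q j) hQint ⟨-q₀, p₀, by linear_combination hd⟩
      (by
        have : (q₀ : ℝ) ≤ Q j := by nlinarith
        exact hTq.trans (pow_le_pow_left₀ (by linarith) this 2))
      (by
        have h3 : (Q j : ℝ) ^ 2 ≤ ((2 * J + 1) * q₀) ^ 2 := pow_le_pow_left₀ (by linarith) h2 2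
        calc (Q j : ℝ) ^ 2 ≤ ((2 * J + 1) * q₀) ^ 2 := h3
          _ = (2 * (J : ℝ) + 1) ^ 2 * (q₀ : ℝ) ^ 2 := by ring
          _ ≤ (2 * (J : ℝ) + 1) ^ 2 * (C * T) := mul_le_mul_of_nonneg_left hqC (by positivity)
          _ = _ := by ring)
      (hx j hj)
    have h5 := bound a b (P j) (Q j) p₀ q₀ J ε (by linarith) hε0 (by linarith) hOb hd hq₀ hQint h1
      (by nlinarith) hab
    have h6 : (a : ℝ) < 2 ^ n0 * T := by
      calc (a : ℝ) < 144 * (q₀ : ℝ) ^ 2 := h5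
        _ ≤ 144 * (C * T) := by linarith
        _ = (144 * C) * T := by ring
        _ ≤ _ := mul_le_mul_of_nonneg_right hn0 hT0.le
    obtain ⟨i, hi1, hi2, hi3⟩ := dyadic T a hTa n0 h6
    exact ⟨a, b, i, hOb, hTa, hab, hi1, hi2, hi3⟩
  choose! a b i hOb hTa hab hi1 hi2 hi3 using hit
  -- the centers
  have hcen : ∀ j ∈ Finset.Icc J (2 * J), |-(b j : ℝ) / (2 * a j) - p₀ / q₀| < 1 / T := by
    intro j hj
    have ha0 : (0 : ℝ) < a j := lt_of_lt_of_le hT0 (hTa j hj)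
    have h1 : -(b j : ℝ) / (2 * a j) - (P j : ℝ) / Q j =
        -(2 * (a j : ℝ) * ((P j : ℝ) / Q j) + b j) / (2 * a j) := by
      field_simp
      ring
    have h2 : |-(b j : ℝ) / (2 * a j) - (P j : ℝ) / Q j| ≤ ε / T := by
      rw [h1, abs_div, abs_neg, abs_of_pos (show (0 : ℝ) < 2 * a j by positivity)]
      rw [div_le_div_iff₀ (by positivity) hT0]
      have h3 := (hab j hj).le
      have h4 := hTa j hj
      calc |2 * (a j : ℝ) * ((P j : ℝ) / Q j) + b j| * T ≤ 2 * ε * T :=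
            mul_le_mul_of_nonneg_right h3 hT0.le
        _ ≤ 2 * ε * a j := mul_le_mul_of_nonneg_left h4 (by linarith)
        _ = ε * (2 * a j) := by ring
    have h5 := hx j hj
    have h6 := abs_sub_le (-(b j : ℝ) / (2 * a j)) ((P j : ℝ) / Q j) (p₀ / q₀)
    have h7 : ε / T ≤ 1 / 8 / T := div_le_div_of_nonneg_right hε1 hT0.le
    have h8 : 1 / 8 / T + 1 / 512 / T < 1 / T := by
      rw [← add_div]
      exact div_lt_div_of_pos_right (by norm_num) hT0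
    linarith
  set g : ℕ → ℝ := fun j => (-(b j : ℝ) / (2 * a j) - (p₀ / q₀ - 1 / T)) *
    (2 * (2 ^ (i j) * T)) with hg
  have hg0 : ∀ j ∈ Finset.Icc J (2 * J), 0 ≤ g j ∧ g j < 4 * 2 ^ n0 := by
    intro j hj
    have h1 := abs_lt.1 (hcen j hj)
    have h2 : (0 : ℝ) < 2 ^ (i j) := by positivity
    simp only [hg]
    constructor
    · apply mul_nonneg (by linarith) (by positivity)
    · have h3 : -(b j : ℝ) / (2 * a j) - (p₀ / q₀ - 1 / T) < 2 / T := by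
        have : (2 : ℝ) / T = 1 / T + 1 / T := by ring
        rw [this]
        linarith
      calc (-(b j : ℝ) / (2 * a j) - (p₀ / q₀ - 1 / T)) * (2 * (2 ^ (i j) * T)) <
            2 / T * (2 * (2 ^ (i j) * T)) := mul_lt_mul_of_pos_right h3 (by positivity)
        _ = 4 * 2 ^ (i j) := by field_simp; norm_num
        _ ≤ 4 * 2 ^ n0 := by
          have := pow_le_pow_right₀ (show (1 : ℝ) ≤ 2 by norm_num) (hi1 j hj).le
          linarith
  obtain ⟨j, hj, k, hk, hjk, hf⟩ := Finset.exists_ne_map_eq_of_card_lt_of_maps_to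
    (s := Finset.Icc J (2 * J)) (t := Finset.range n0 ×ˢ Finset.range (4 * 2 ^ n0))
    (f := fun j => (i j, ⌊g j⌋₊)) (by
      rw [Finset.card_product, Finset.card_range, Finset.card_range, Nat.card_Icc]
      omega) (by
      intro j hj
      have hj' : j ∈ Finset.Icc J (2 * J) := hj
      simp only [Finset.coe_product, Finset.coe_range, Set.mem_prod, Set.mem_Iio]
      refine ⟨hi1 j hj', ?_⟩
      rw [Nat.floor_lt (hg0 j hj').1]
      have := (hg0 j hj').2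
      push_cast
      exact this)
  simp only [Prod.mk.injEq] at hf
  obtain ⟨hf1, hf2⟩ := hf
  have hclose := floor_close (hg0 j hj).1 (hg0 k hk).1 hf2
  -- the obstacles are different
  have hdiff : (a j, b j) ≠ (a k, b k) := by
    intro heq
    rw [Prod.mk.injEq] at heq
    obtain ⟨e1, e2⟩ := heq
    have h1 := hab j hj
    have h2 := hab k hk
    rw [e1, e2] at h1
    have hak := hTa k hk
    obtain ⟨hj1, hj2⟩ := hQ1 j hj
    obtain ⟨hk1, hk2⟩ := hQ1 k hk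
    have hQj : (0 : ℝ) < Q j := by nlinarith
    have hQk : (0 : ℝ) < Q k := by nlinarith
    have h3 : |2 * (a k : ℝ) * ((P j : ℝ) / Q j - (P k : ℝ) / Q k)| < 4 * ε := by
      have e : 2 * (a k : ℝ) * ((P j : ℝ) / Q j - (P k : ℝ) / Q k) =
          (2 * (a k : ℝ) * ((P j : ℝ) / Q j) + b k) - (2 * (a k : ℝ) * ((P k : ℝ) / Q k) + b k) := by
        ring
      rw [e]
      refine lt_of_le_of_lt (abs_sub _ _) ?_
      linarith
    have h4 : (P j : ℝ) / Q j - (P k : ℝ) / Q k = ((j : ℝ) - k) / (Q j * Q k) := by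
      rw [div_sub_div _ _ hQj.ne' hQk.ne']
      congr 1
      rw [hPr, hQr, hPr, hQr]
      linear_combination ((j : ℝ) - k) * hdetr
    have h5 : (1 : ℝ) ≤ |(j : ℝ) - k| := by
      have h6 : (1 : ℤ) ≤ |(j : ℤ) - k| := Int.one_le_abs (by
        intro h7
        apply hjk
        omega)
      exact_mod_cast h6
    rw [h4, abs_mul, abs_div, abs_of_pos (mul_pos hQj hQk),
      abs_of_pos (show (0 : ℝ) < 2 * a k by linarith)] at h3
    have h6 : (Q j : ℝ) * Q k ≤ (2 * (J : ℝ) + 1) ^ 2 * C * T := by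
      calc (Q j : ℝ) * Q k ≤ ((2 * J + 1) * q₀) * ((2 * J + 1) * q₀) :=
            mul_le_mul hj2 hk2 hQk.le (by positivity)
        _ = (2 * (J : ℝ) + 1) ^ 2 * (q₀ : ℝ) ^ 2 := by ring
        _ ≤ (2 * (J : ℝ) + 1) ^ 2 * (C * T) := mul_le_mul_of_nonneg_left hqC (by positivity)
        _ = _ := by ring
    have h7 : 1 / ((2 * (J : ℝ) + 1) ^ 2 * C * T) ≤ |(j : ℝ) - k| / (Q j * Q k) :=
      div_le_div₀ (by linarith) h5 (mul_pos hQj hQk) h6
    have h8 : 2 * T * (1 / ((2 * (J : ℝ) + 1) ^ 2 * C * T)) ≤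
        2 * a k * (|(j : ℝ) - k| / (Q j * Q k)) :=
      mul_le_mul (by linarith) h7 (by positivity) (by linarith)
    have h9 : 2 * T * (1 / ((2 * (J : ℝ) + 1) ^ 2 * C * T)) = 16 * ε := by
      rw [hε]
      field_simp
      norm_num
    linarith
  have hA : (0 : ℝ) < 2 ^ (i j) * T := by positivity
  have hsep := h (2 ^ (i j) * T) (a j) (b j) (a k) (b k) hA (hOb j hj) (hOb k hk) (hi2 j hj)
    (by
      have := hi3 j hj
      rw [pow_succ] at this
      linarith) (by rw [hf1]; exact hi2 k hk)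
    (by
      have := hi3 k hk
      rw [pow_succ] at this
      rw [hf1]
      linarith) hdiff
  have h1 : g j - g k = (-(b j : ℝ) / (2 * a j) - (-(b k : ℝ) / (2 * a k))) *
      (2 * (2 ^ (i j) * T)) := by
    simp only [hg]
    rw [← hf1]
    ring
  rw [h1, abs_mul, abs_of_pos (show (0 : ℝ) < 2 * (2 ^ (i j) * T) by positivity)] at hclose
  rw [div_le_iff₀ (by positivity)] at hsep
  linarith

end Pool.Agent.N217.EU
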