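import Mathlib
import Pool.Agent.N217.EU.Stm

/-!
# Project EU, leaf CNT: number of subintervals which meet a zone about a separated set
-/

set_option autoImplicit false

namespace Pool.Agent.N217.EU

open Set

namespace CNTaux

/-- a set of natural numbers in an open interval -/
lemma card_le (s : Finset ℕ) (a b : ℝ) (hab : a ≤ b) (h : ∀ i ∈ s, a < (i : ℝ) ∧ (i : ℝ) < b) :
    (s.card : ℝ) ≤ b - a + 1 := by
  classical
  have h1 : (s.image (fun n : ℕ => (n : ℤ))) ⊆
      Finset.Icc (⌊a⌋ + 1) (⌈b⌉ - 1) := by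
    intro z hz
    rw [Finset.mem_image] at hz
    obtain ⟨i, hi, rfl⟩ := hz
    obtain ⟨h2, h3⟩ := h i hi
    rw [Finset.mem_Icc]
    constructor
    · have : ⌊a⌋ < (i : ℤ) := by
        rw [Int.floor_lt]; exact_mod_cast h2
      omega
    · have : (i : ℤ) < ⌈b⌉ := by
        rw [Int.lt_ceil]; exact_mod_cast h3
      omega
  have h2 := Finset.card_le_card h1
  rw [Finset.card_image_of_injective s Nat.cast_injective, Int.card_Icc] at h2
  have h3 : (s.card : ℤ) ≤ max (⌈b⌉ - 1 + 1 - (⌊a⌋ + 1)) 0 := by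
    have h4 : (s.card : ℤ) ≤ ((⌈b⌉ - 1 + 1 - (⌊a⌋ + 1)).toNat : ℤ) := by exact_mod_cast h2
    rwa [Int.toNat_eq_max] at h4
  have h4 : (s.card : ℝ) ≤ max ((⌈b⌉ : ℝ) - 1 + 1 - (⌊a⌋ + 1)) 0 := by exact_mod_cast h3
  have h5 : (⌈b⌉ : ℝ) < b + 1 := Int.ceil_lt_add_one b
  have h6 : a < ⌊a⌋ + 1 := Int.lt_floor_add_one a
  refine h4.trans (max_le ?_ ?_) <;> linarith

end CNTaux

theorem t_cnt : S_CNT := by
  classical
  intro P A ρ T y R hA hρ hρ4 hT hR hsep
  have hR0 : (0 : ℝ) < R := by exact_mod_cast hR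
  set w : ℝ := 1 / 64 / (T * R) with hw
  have hw0 : 0 < w := by positivity
  have hRw : (R : ℝ) * w = 1 / (64 * T) := by
    rw [hw]; field_simp
  -- the relevant points
  set P' : Set ℝ := {u | u ∈ P ∧ y - ρ / A < u ∧ u < y + 1 / (64 * T) + ρ / A} with hP'
  set g : ℝ → ℕ := fun u => ⌊2 * A * (u - (y - ρ / A))⌋₊ with hg
  set N : ℕ := ⌊A / (32 * T) + 1⌋₊ + 1 with hN
  have hginj : Set.InjOn g P' := by
    intro u hu v hv huv
    by_contra hne
    have h1 := hsep u hu.1 v hv.1 hne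
    have hu0 : 0 ≤ 2 * A * (u - (y - ρ / A)) := by
      have := hu.2.1
      have h2 : 0 ≤ u - (y - ρ / A) := by linarith
      positivity
    have hv0 : 0 ≤ 2 * A * (v - (y - ρ / A)) := by
      have := hv.2.1
      have h2 : 0 ≤ v - (y - ρ / A) := by linarith
      positivity
    have h3 : (⌊2 * A * (u - (y - ρ / A))⌋₊ : ℝ) = (⌊2 * A * (v - (y - ρ / A))⌋₊ : ℝ) := by
      exact_mod_cast huv
    have h4 := Nat.floor_le hu0
    have h5 := Nat.floor_le hv0
    have h6 := Nat.lt_floor_add_one (2 * A * (u - (y - ρ / A)))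
    have h7 := Nat.lt_floor_add_one (2 * A * (v - (y - ρ / A)))
    have h8 : |2 * A * (u - v)| < 1 := by
      rw [abs_lt]
      constructor <;> nlinarith
    rw [abs_mul, abs_of_pos (by positivity : (0 : ℝ) < 2 * A)] at h8
    have h9 : 2 * A * (1 / (2 * A)) ≤ 2 * A * |u - v| :=
      mul_le_mul_of_nonneg_left h1 (by positivity)
    have h10 : 2 * A * (1 / (2 * A)) = 1 := by field_simp
    linarith
  have hgmem : Set.MapsTo g P' (Finset.range N : Set ℕ) := by
    intro u hu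
    have h1 : 2 * A * (u - (y - ρ / A)) ≤ A / (32 * T) + 1 := by
      have h2 : u - (y - ρ / A) ≤ 1 / (64 * T) + 2 * (ρ / A) := by
        have := hu.2.2
        linarith
      have h3 : 2 * A * (u - (y - ρ / A)) ≤ 2 * A * (1 / (64 * T) + 2 * (ρ / A)) :=
        mul_le_mul_of_nonneg_left h2 (by positivity)
      have h4 : 2 * A * (1 / (64 * T) + 2 * (ρ / A)) = A / (32 * T) + 4 * ρ := by
        field_simp; ring
      linarith
    have h5 : g u ≤ ⌊A / (32 * T) + 1⌋₊ := Nat.floor_le_floor h1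
    simp only [Finset.coe_range, Set.mem_Iio]
    omega
  have hfin : P'.Finite :=
    Set.Finite.of_injOn hgmem hginj (Finset.finite_toSet _)
  have hcard : hfin.toFinset.card ≤ N := by
    have h1 : hfin.toFinset.card ≤ (Finset.range N).card := by
      apply Finset.card_le_card_of_injOn g
      · intro u hu
        exact hgmem (by simpa using hu)
      · intro u hu v hv
        exact hginj (by simpa using hu) (by simpa using hv)
    rwa [Finset.card_range] at h1
  have hNle : (N : ℝ) ≤ A / (32 * T) + 2 := by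
    have h1 : (⌊A / (32 * T) + 1⌋₊ : ℝ) ≤ A / (32 * T) + 1 := Nat.floor_le (by positivity)
    rw [hN]; push_cast; linarith
  -- the indices for a fixed point
  set F : ℝ → Finset ℕ := fun u => (Finset.range R).filter (fun i : ℕ => ∃ x : ℝ,
    y + i * w ≤ x ∧ x ≤ y + (i + 1) * w ∧ |x - u| < ρ / A) with hF
  have hFcard : ∀ u, ((F u).card : ℝ) ≤ 128 * ρ * R * T / A + 2 := by
    intro u
    have h1 := CNTaux.card_le (F u) ((u - ρ / A - y) / w - 1) ((u + ρ / A - y) / w) (by
      have h2 : (u - ρ / A - y) / w ≤ (u + ρ / A - y) / w := by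
        apply div_le_div_of_nonneg_right _ hw0.le
        have : 0 ≤ ρ / A := by positivity
        linarith
      linarith) (by
      intro i hi
      obtain ⟨-, x, hx1, hx2, hx3⟩ := Finset.mem_filter.mp hi
      rw [abs_lt] at hx3
      constructor
      · rw [sub_lt_iff_lt_add, div_lt_iff₀ hw0]
        linarith
      · rw [lt_div_iff₀ hw0]
        linarith)
    refine h1.trans (le_of_eq ?_)
    have h3 : (u + ρ / A - y) / w - ((u - ρ / A - y) / w - 1) + 1 = 2 * (ρ / A) / w + 2 := by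
      field_simp; ring
    rw [h3, hw]
    field_simp
    ring
  -- the union
  have hset : {i : ℕ | i < R ∧ ∃ u ∈ P, ∃ x : ℝ, y + i * w ≤ x ∧
      x ≤ y + (i + 1) * w ∧ |x - u| < ρ / A} ⊆ ((hfin.toFinset.biUnion F : Finset ℕ) : Set ℕ) := by
    rintro i ⟨hi, u, hu, x, hx1, hx2, hx3⟩
    rw [Finset.mem_coe, Finset.mem_biUnion]
    refine ⟨u, ?_, ?_⟩
    · rw [Set.Finite.mem_toFinset]
      have hi1 : ((i : ℝ) + 1) ≤ R := by exact_mod_cast hi
      have hi2 : ((i : ℝ) + 1) * w ≤ R * w := mul_le_mul_of_nonneg_right hi1 hw0.le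
      have hi3 : 0 ≤ (i : ℝ) * w := by positivity
      rw [abs_lt] at hx3
      exact ⟨hu, by linarith, by linarith⟩
    · rw [hF]
      simp only [Finset.mem_filter, Finset.mem_range]
      exact ⟨hi, x, hx1, hx2, hx3⟩
  have h1 : ({i : ℕ | i < R ∧ ∃ u ∈ P, ∃ x : ℝ, y + i * w ≤ x ∧
      x ≤ y + (i + 1) * w ∧ |x - u| < ρ / A}).ncard ≤ (hfin.toFinset.biUnion F).card := by
    have h2 := Set.ncard_le_ncard hset (Finset.finite_toSet _)
    rwa [Set.ncard_coe_finset] at h2
  have h2 : (((hfin.toFinset.biUnion F).card : ℕ) : ℝ) ≤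
      ∑ u ∈ hfin.toFinset, ((F u).card : ℝ) := by
    exact_mod_cast Finset.card_biUnion_le
  have h3 : ∑ u ∈ hfin.toFinset, ((F u).card : ℝ) ≤
      (hfin.toFinset.card : ℝ) * (128 * ρ * R * T / A + 2) := by
    calc _ ≤ ∑ u ∈ hfin.toFinset, (128 * ρ * R * T / A + 2) :=
          Finset.sum_le_sum fun u _ => hFcard u
      _ = _ := by rw [Finset.sum_const, nsmul_eq_mul]
  have h4 : (hfin.toFinset.card : ℝ) ≤ A / (32 * T) + 2 :=
    le_trans (by exact_mod_cast hcard) hNle
  have h5 : (0 : ℝ) ≤ 128 * ρ * R * T / A + 2 := by positivity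
  calc _ ≤ (((hfin.toFinset.biUnion F).card : ℕ) : ℝ) := by exact_mod_cast h1
    _ ≤ _ := h2
    _ ≤ _ := h3
    _ ≤ _ := mul_le_mul_of_nonneg_right h4 h5

end Pool.Agent.N217.EU
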