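import Pool.Agent.N217.EU.Stm

/-!
# Project EU, part DI: numbers which avoid the obstacles are in `DI₂`
-/

set_option autoImplicit false
set_option linter.all false

namespace Pool.Agent.N217.EU

namespace DI

theorem le_of_sq {a b : ℝ} (h : a ^ 2 ≤ b ^ 2) (hb : 0 ≤ b) : a ≤ b := by
  by_contra hc
  push Not at hc
  have : b ^ 2 < a ^ 2 := pow_lt_pow_left₀ hc hb two_ne_zero
  linarith

/-- the quadratic form `A P² + B P Q + C Q²` -/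
theorem form_nonneg {A B C m η : ℝ} (hη : 0 < η) (hm : 0 < m) (hA : m * η ≤ A - m)
    (hC : m * η ≤ C - m) (hB1 : B - m ≤ 2 * (m * η)) (hB2 : -(2 * (m * η)) ≤ B - m) (X Y : ℝ) :
    m * (X ^ 2 + X * Y + Y ^ 2) ≤ A * X ^ 2 + B * (X * Y) + C * Y ^ 2 := by
  have hk : 0 < m * η := mul_pos hm hη
  have h1 : (B - m) * (X * Y) ≥ -(2 * (m * η)) * |X * Y| := by
    have h2 : |(B - m) * (X * Y)| ≤ 2 * (m * η) * |X * Y| := by
      rw [abs_mul]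
      exact mul_le_mul_of_nonneg_right (abs_le.2 ⟨by linarith, hB1⟩) (abs_nonneg _)
    have h3 := neg_abs_le ((B - m) * (X * Y))
    linarith
  have h4 : (A - m) * X ^ 2 ≥ m * η * X ^ 2 := mul_le_mul_of_nonneg_right hA (sq_nonneg _)
  have h5 : (C - m) * Y ^ 2 ≥ m * η * Y ^ 2 := mul_le_mul_of_nonneg_right hC (sq_nonneg _)
  have h6 : m * η * X ^ 2 + m * η * Y ^ 2 - 2 * (m * η) * |X * Y| ≥ 0 := by
    have : m * η * X ^ 2 + m * η * Y ^ 2 - 2 * (m * η) * |X * Y| = m * η * (|X| - |Y|) ^ 2 := by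
      rw [abs_mul, ← sq_abs X, ← sq_abs Y]; ring
    rw [this]
    positivity
  linarith [h1, h4, h5, h6]

theorem main (hR : S_RED) {x ε η k m0 : ℝ} (hε : 0 < ε)
    (hob : ∀ a b : ℤ, Ob a b → ε ≤ |2 * a * x + b|) (hη : 0 < η) (hη1 : η ≤ 1 / 4)
    (hk : 1 < k) (hm0 : 0 < m0) (hm02 : m0 ^ 2 = 4 / 3)
    (c1 : 3 * ((1 + η) ^ 2 * k ^ 2 - 1) < ε ^ 2) (c2 : k * (1 + η) ≤ 1 + 2 * η)
    (c3 : 4 / 3 * (1 - 2 * η) ^ 2 ≤ (16 / 3 - 4 * k ^ 2) * (1 + η) ^ 2) {t : ℝ} (ht : 0 < t)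
    (hcon : ∀ p q : ℤ, (p, q) ≠ (0, 0) → m0 < (t * (p + q * x) * k) ^ 2 + (q / t) ^ 2) : False := by
  obtain ⟨w, hw⟩ : ∃ w : ℝ, w = 1 / t := ⟨_, rfl⟩
  have hw0 : 0 < w := by rw [hw]; positivity
  have htw : t * w = 1 := by rw [hw]; field_simp
  obtain ⟨A, hA⟩ : ∃ A : ℝ, A = t ^ 2 * k ^ 2 := ⟨_, rfl⟩
  obtain ⟨B, hB⟩ : ∃ B : ℝ, B = 2 * t ^ 2 * k ^ 2 * x := ⟨_, rfl⟩
  obtain ⟨C, hC⟩ : ∃ C : ℝ, C = t ^ 2 * k ^ 2 * x ^ 2 + w ^ 2 := ⟨_, rfl⟩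
  have hk0 : 0 < k := by linarith
  have hA0 : 0 < A := by rw [hA]; positivity
  have hdisc : 4 * A * C - B ^ 2 = 4 * k ^ 2 := by
    have : 4 * A * C - B ^ 2 = 4 * k ^ 2 * (t * w) ^ 2 := by rw [hA, hB, hC]; ring
    rw [this, htw]; ring
  have hF : ∀ p q : ℤ, (t * (p + q * x) * k) ^ 2 + (q / t) ^ 2 =
      A * (p : ℝ) ^ 2 + B * p * q + C * (q : ℝ) ^ 2 := by
    intro p q
    have : (q : ℝ) / t = q * w := by rw [hw]; ring
    rw [this, hA, hB, hC]; ring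
  have hdisc' : B ^ 2 < 4 * A * C := by
    have : 0 < 4 * k ^ 2 := by positivity
    linarith
  obtain ⟨p₁, q₁, p₂, q₂, hD, r1, r2, r3⟩ := hR A B C hA0 hdisc'
  have hD2 : (p₁ * q₂ - p₂ * q₁) ^ 2 = 1 := by
    rcases hD with h | h <;> rw [h] <;> norm_num
  have hD2r : ((p₁ : ℝ) * q₂ - p₂ * q₁) ^ 2 = 1 := by exact_mod_cast hD2
  have hv1 : (p₁, q₁) ≠ (0, 0) := by
    intro h
    rw [Prod.mk.injEq] at h
    rw [h.1, h.2] at hD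
    rcases hD with h | h <;> norm_num at h
  have hv2 : (p₂, q₂) ≠ (0, 0) := by
    intro h
    rw [Prod.mk.injEq] at h
    rw [h.1, h.2] at hD
    rcases hD with h | h <;> norm_num at h
  have hA1 := hcon p₁ q₁ hv1
  have hC1 := hcon p₂ q₂ hv2
  rw [hF] at hA1 hC1
  obtain ⟨A', hA'⟩ : ∃ A' : ℝ, A' = A * (p₁ : ℝ) ^ 2 + B * p₁ * q₁ + C * (q₁ : ℝ) ^ 2 := ⟨_, rfl⟩
  obtain ⟨C', hC'⟩ : ∃ C' : ℝ, C' = A * (p₂ : ℝ) ^ 2 + B * p₂ * q₂ + C * (q₂ : ℝ) ^ 2 := ⟨_, rfl⟩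
  obtain ⟨B', hB'⟩ : ∃ B' : ℝ, B' = 2 * A * p₁ * p₂ + B * (p₁ * q₂ + p₂ * q₁) + 2 * C * q₁ * q₂ :=
    ⟨_, rfl⟩
  rw [← hA'] at hA1 r2 r3
  rw [← hC'] at hC1 r3
  rw [← hB'] at r1 r2
  have hdd : 4 * A' * C' - B' ^ 2 = 4 * k ^ 2 := by
    have : 4 * A' * C' - B' ^ 2 = (4 * A * C - B ^ 2) * ((p₁ : ℝ) * q₂ - p₂ * q₁) ^ 2 := by
      rw [hA', hB', hC']; ring
    rw [this, hD2r, hdisc]; ring
  have hA'0 : 0 < A' := hm0.trans hA1
  -- bounds for `A'` and `B'`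
  have hA'k : A' ≤ m0 * k := by
    have h1 : 3 * A' ^ 2 ≤ 4 * k ^ 2 := by
      have h2 : B' ^ 2 ≤ A' ^ 2 := pow_le_pow_left₀ r1 r2 2
      have h3 : A' ^ 2 ≤ A' * C' := by rw [sq]; exact mul_le_mul_of_nonneg_left r3 hA'0.le
      linarith only [h2, h3, hdd]
    have h4 : A' ^ 2 ≤ (m0 * k) ^ 2 := by rw [mul_pow, hm02]; linarith
    exact le_of_sq h4 (by positivity)
  obtain ⟨m, hm⟩ : ∃ m : ℝ, m = m0 / (1 + η) := ⟨_, rfl⟩
  have hs : 0 < 1 + η := by linarith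
  have hm' : m0 = m * (1 + η) := by rw [hm]; field_simp
  have hmpos : 0 < m := by rw [hm]; positivity
  have hBu : B' - m ≤ 2 * (m * η) := by
    have h1 : B' ≤ m0 * k := r2.trans hA'k
    have h2 : m0 * k ≤ m * (1 + 2 * η) := by
      rw [hm']
      have : m * (1 + η) * k = m * (k * (1 + η)) := by ring
      rw [this]
      exact mul_le_mul_of_nonneg_left c2 hmpos.le
    linarith only [h1, h2]
  have hBl : -(2 * (m * η)) ≤ B' - m := by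
    have h1 : 16 / 3 - 4 * k ^ 2 ≤ B' ^ 2 := by
      have h2 : m0 ^ 2 ≤ A' * C' := by
        rw [sq]
        exact mul_le_mul hA1.le hC1.le hm0.le hA'0.le
      linarith only [h2, hdd, hm02]
    have h3 : (m * (1 - 2 * η)) ^ 2 ≤ B' ^ 2 := by
      refine le_trans ?_ h1
      have h4 : m ^ 2 * (1 + η) ^ 2 = 4 / 3 := by rw [← hm02, hm']; ring
      have h5 : (m * (1 - 2 * η)) ^ 2 * (1 + η) ^ 2 ≤ (16 / 3 - 4 * k ^ 2) * (1 + η) ^ 2 := by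
        refine le_trans (le_of_eq ?_) c3
        rw [← h4]; ring
      exact le_of_mul_le_mul_right h5 (by positivity)
    have h6 : m * (1 - 2 * η) ≤ B' := by
      refine le_of_sq h3 r1
    linarith only [h6]
  have hAm : m * η ≤ A' - m := by rw [hm'] at hA1; linarith only [hA1]
  have hCm : m * η ≤ C' - m := by rw [hm'] at hC1; linarith only [hC1]
  have key : ∀ P Q : ℝ, m * ((P * q₂ - Q * p₂) ^ 2 + (P * q₂ - Q * p₂) * (p₁ * Q - q₁ * P) +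
      (p₁ * Q - q₁ * P) ^ 2) ≤ A * P ^ 2 + B * P * Q + C * Q ^ 2 := by
    intro P Q
    have h1 := form_nonneg hη hmpos hAm hCm hBu hBl (P * q₂ - Q * p₂) (p₁ * Q - q₁ * P)
    refine h1.trans (le_of_eq ?_)
    have h2 : A' * (P * q₂ - Q * p₂) ^ 2 + B' * ((P * q₂ - Q * p₂) * (p₁ * Q - q₁ * P)) +
        C' * (p₁ * Q - q₁ * P) ^ 2 = (A * P ^ 2 + B * P * Q + C * Q ^ 2) *
          ((p₁ : ℝ) * q₂ - p₂ * q₁) ^ 2 := by
      rw [hA', hB', hC']; ring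
    rw [h2, hD2r, mul_one]
  -- the integral form
  obtain ⟨a, ha⟩ : ∃ a : ℤ, a = q₂ ^ 2 - q₁ * q₂ + q₁ ^ 2 := ⟨_, rfl⟩
  obtain ⟨b, hb⟩ : ∃ b : ℤ, b = 2 * p₂ * q₂ - p₁ * q₂ - p₂ * q₁ + 2 * p₁ * q₁ := ⟨_, rfl⟩
  obtain ⟨e, he⟩ : ∃ e : ℤ, e = p₂ ^ 2 - p₁ * p₂ + p₁ ^ 2 := ⟨_, rfl⟩
  have hab : b ^ 2 + 3 = 4 * a * e := by
    have : 4 * a * e = b ^ 2 + 3 * (p₁ * q₂ - p₂ * q₁) ^ 2 := by rw [ha, hb, he]; ring
    rw [this, hD2]; ring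
  have ha1 : 1 ≤ a := by
    by_contra hcon'
    have h1 : a ≤ 0 := by omega
    have h2 : 4 * a = (2 * q₂ - q₁) ^ 2 + 3 * q₁ ^ 2 := by rw [ha]; ring
    have h3 : q₁ = 0 := by
      have : q₁ ^ 2 ≤ 0 := by
        have h5 := sq_nonneg (2 * q₂ - q₁)
        linarith only [h5, h1, h2]
      exact pow_eq_zero_iff (two_ne_zero) |>.mp (le_antisymm this (sq_nonneg _))
    have h4 : q₂ = 0 := by
      rw [h3] at h2
      have : q₂ ^ 2 ≤ 0 := by linarith only [h1, h2]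
      exact pow_eq_zero_iff (two_ne_zero) |>.mp (le_antisymm this (sq_nonneg _))
    rw [h3, h4] at hD
    rcases hD with h | h <;> norm_num at h
  have hOb : Ob a b := ⟨ha1, ⟨e, by rw [hab]⟩⟩
  have hfin := hob a b hOb
  have ha1r : (1 : ℝ) ≤ a := by exact_mod_cast ha1
  have hG1 : m * a ≤ t ^ 2 * k ^ 2 := by
    have := key 1 0
    have h1 : (a : ℝ) = (q₂ : ℝ) ^ 2 - q₁ * q₂ + q₁ ^ 2 := by rw [ha]; push_cast; ring
    rw [h1, ← hA]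
    linarith only [this]
  obtain ⟨G, hG⟩ : ∃ G : ℝ, G = a * x ^ 2 + b * x + e := ⟨_, rfl⟩
  have hG2 : m * G ≤ w ^ 2 := by
    have h0 := key (-x) 1
    have h1 : A * (-x) ^ 2 + B * (-x) * 1 + C * 1 ^ 2 = w ^ 2 := by rw [hA, hB, hC]; ring
    rw [h1] at h0
    refine le_trans (le_of_eq ?_) h0
    rw [hG, ha, hb, he]
    push_cast
    ring
  have habr : (b : ℝ) ^ 2 + 3 = 4 * a * e := by exact_mod_cast hab
  have h4G : 4 * a * G = (2 * a * x + b) ^ 2 + 3 := by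
    rw [hG]; linear_combination -habr
  have hG0 : 0 ≤ G := by
    have : 0 ≤ 4 * a * G := by rw [h4G]; positivity
    by_contra hneg
    push Not at hneg
    have : 4 * a * G < 0 := mul_neg_of_pos_of_neg (by linarith only [ha1r]) hneg
    linarith
  have hprod : m ^ 2 * (a * G) ≤ k ^ 2 := by
    have h1 : (m * a) * (m * G) ≤ (t ^ 2 * k ^ 2) * w ^ 2 :=
      mul_le_mul hG1 hG2 (mul_nonneg hmpos.le hG0) (by positivity)
    have h2 : (t ^ 2 * k ^ 2) * w ^ 2 = k ^ 2 * (t * w) ^ 2 := by ring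
    rw [h2, htw] at h1
    linarith only [h1]
  have hsq : (2 * a * x + b) ^ 2 ≤ 3 * ((1 + η) ^ 2 * k ^ 2 - 1) := by
    have h4 : m ^ 2 * (1 + η) ^ 2 = 4 / 3 := by rw [← hm02, hm']; ring
    have h5 : 4 / 3 * (a * G) ≤ (1 + η) ^ 2 * k ^ 2 := by
      rw [← h4]
      have : m ^ 2 * (1 + η) ^ 2 * (a * G) = (1 + η) ^ 2 * (m ^ 2 * (a * G)) := by ring
      rw [this]
      exact mul_le_mul_of_nonneg_left hprod (by positivity)
    linarith only [h5, h4G]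
  have hlast : ε ^ 2 ≤ (2 * a * x + b) ^ 2 := by
    rw [← sq_abs (2 * a * x + b)]
    exact pow_le_pow_left₀ hε.le hfin 2
  linarith

end DI

theorem t_di (h : S_RED) : S_DI := by
  intro x ε₀ hε₀ hob₀
  obtain ⟨ε, hε, hε1, hob⟩ : ∃ ε : ℝ, 0 < ε ∧ ε ≤ 1 ∧ ∀ a b : ℤ, Ob a b → ε ≤ |2 * a * x + b| :=
    ⟨min ε₀ 1, lt_min hε₀ one_pos, min_le_right _ _,
      fun a b hab => (min_le_left _ _).trans (hob₀ a b hab)⟩
  obtain ⟨η, hη⟩ : ∃ η : ℝ, η = ε ^ 2 / 100 := ⟨_, rfl⟩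
  have hη0 : 0 < η := by rw [hη]; positivity
  have hε2 : ε ^ 2 ≤ 1 := pow_le_one₀ hε.le hε1
  have hη1 : η ≤ 1 / 100 := by rw [hη]; linarith
  have hηη : η * η ≤ η * (1 / 100) := mul_le_mul_of_nonneg_left hη1 hη0.le
  have hη3 : η * η * η ≤ η * η * (1 / 100) := mul_le_mul_of_nonneg_left hη1 (by positivity)
  obtain ⟨k, hk⟩ : ∃ k : ℝ, k = 1 + η / 10 := ⟨_, rfl⟩
  have hk1 : 1 < k := by rw [hk]; linarith
  have hk0 : 0 < k := by linarith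
  have hm0 : (0 : ℝ) < 2 / √3 := by positivity
  have hm02 : (2 / √3 : ℝ) ^ 2 = 4 / 3 := by
    rw [div_pow, Real.sq_sqrt (by norm_num)]; norm_num
  have c2 : k * (1 + η) ≤ 1 + 2 * η := by rw [hk]; linarith only [hηη, hη0]
  have c1 : 3 * ((1 + η) ^ 2 * k ^ 2 - 1) < ε ^ 2 := by
    have h1 : (1 + η) ^ 2 * k ^ 2 ≤ 1 + 5 * η := by
      have h2 : (1 + η) ^ 2 * k ^ 2 = (k * (1 + η)) ^ 2 := by ring
      have h3 : (k * (1 + η)) ^ 2 ≤ (1 + 2 * η) ^ 2 := pow_le_pow_left₀ (by positivity) c2 2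
      rw [h2]
      linarith only [h3, hηη, hη0]
    have h4 : 15 * η < ε ^ 2 := by
      rw [hη]
      have : 0 < ε ^ 2 := by positivity
      linarith
    linarith
  have c3 : 4 / 3 * (1 - 2 * η) ^ 2 ≤ (16 / 3 - 4 * k ^ 2) * (1 + η) ^ 2 := by
    have h1 : 4 / 3 - η ≤ 16 / 3 - 4 * k ^ 2 := by rw [hk]; linarith only [hηη, hη0]
    have h2 : (4 / 3 - η) * (1 + η) ^ 2 ≤ (16 / 3 - 4 * k ^ 2) * (1 + η) ^ 2 :=
      mul_le_mul_of_nonneg_right h1 (by positivity)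
    refine le_trans ?_ h2
    linarith only [hη0, hη1, hηη, hη3]
  refine ⟨k⁻¹, inv_pos.2 hk0, inv_lt_one_of_one_lt₀ hk1, 0, ?_⟩
  intro t _ ht
  by_contra hcon
  push Not at hcon
  refine DI.main h hε hob hη0 (by linarith) hk1 hm0 hm02 c1 c2 c3 ht ?_
  intro p q hpq
  have := hcon p q hpq
  rwa [div_inv_eq_mul] at this

end Pool.Agent.N217.EU
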