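import Pool.Agent.N217.EU.Stm

/-!
# Project EU: a rational number in the middle of an interval
-/

set_option autoImplicit false

namespace Pool.Agent.N217.EU

open Set

theorem t_dir : S_DIR := by
  intro ε₁ ε₂ R l lam ξ y hε hε1 hR hξ hlam hinv
  have hR0 : (0 : ℝ) < (R : ℝ) := by
    have : (2 : ℝ) ≤ (R : ℝ) := by exact_mod_cast hR
    linarith
  have hR1 : (1 : ℝ) ≤ (R : ℝ) := by
    have : (2 : ℝ) ≤ (R : ℝ) := by exact_mod_cast hR
    linarith
  set V : ℝ := (R : ℝ) ^ l with hV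
  have hV1 : 1 ≤ V := one_le_pow₀ hR1
  have hV0 : 0 < V := by linarith
  set T : ℝ := Real.sqrt V with hT
  have hTT : T * T = V := Real.mul_self_sqrt hV0.le
  have hT1 : 1 ≤ T := Real.one_le_sqrt.mpr hV1
  have hT0 : 0 < T := by linarith
  set K : ℝ := 256 / ε₁ with hK
  have hKε : K * ε₁ = 256 := by rw [hK]; field_simp
  have hK256 : 256 ≤ K := by
    rw [hK, le_div_iff₀ hε]; nlinarith
  have hK0 : 0 < K := by linarith
  have hKT1 : 1 ≤ K * T := by nlinarith
  set Q : ℕ := ⌈K * T⌉₊ with hQ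
  have hQ1 : K * T ≤ (Q : ℝ) := Nat.le_ceil _
  have hQ2 : (Q : ℝ) ≤ 2 * (K * T) := by
    have := Nat.ceil_lt_add_one (a := K * T) (by positivity)
    linarith
  have hQ0 : 0 < Q := Nat.ceil_pos.mpr (by positivity)
  set x : ℝ := y + 1 / 128 / V with hx
  have hxI : x ∈ Iv R l y := by
    constructor
    · have : 0 ≤ 1 / 128 / V := by positivity
      linarith
    · have : (1 / 128 / V : ℝ) ≤ 1 / 64 / V := by
        apply div_le_div_of_nonneg_right _ hV0.le
        norm_num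
      rw [hx]; linarith
  obtain ⟨r, hr, hrQ⟩ := Real.exists_rat_abs_sub_le_and_den_le x hQ0
  have hden : 0 < (r.den : ℝ) := by exact_mod_cast r.den_pos
  have hrr : (r : ℝ) = (r.num : ℝ) / ((r.den : ℤ) : ℝ) := by
    rw [Rat.cast_def]; push_cast; rfl
  set q : ℤ := (r.den : ℤ) with hq
  set p : ℤ := r.num with hp
  have hqr : (q : ℝ) = (r.den : ℝ) := by rw [hq]; push_cast; rfl
  rw [hrr, ← hqr] at hr
  have hq0 : 0 < (q : ℝ) := by rw [hqr]; exact hden
  have hq1 : 1 ≤ q := by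
    have : 0 < q := by exact_mod_cast hq0
    omega
  have hqQ : (q : ℝ) ≤ (Q : ℝ) := by rw [hqr]; exact_mod_cast hrQ
  set d : ℝ := |x - p / q| with hd
  have hd0 : 0 ≤ d := abs_nonneg _
  have hdQ : d * (((Q : ℝ) + 1) * q) ≤ 1 := by
    have h1 : 0 < ((Q : ℝ) + 1) * q := by positivity
    rwa [le_div_iff₀ h1] at hr
  -- a lower bound for `q` from a lower bound for `d`
  have hlow : ∀ η : ℝ, 0 < η → η / (q : ℝ) ^ 2 ≤ d → η * (K * T) < q := by
    intro η hη h
    rw [div_le_iff₀ (by positivity)] at h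
    have h2 : η * ((Q : ℝ) + 1) ≤ q := by
      calc η * ((Q : ℝ) + 1) ≤ (d * (q : ℝ) ^ 2) * ((Q : ℝ) + 1) :=
            mul_le_mul_of_nonneg_right h (by positivity)
        _ = (d * (((Q : ℝ) + 1) * q)) * q := by ring
        _ ≤ 1 * q := mul_le_mul_of_nonneg_right hdQ hq0.le
        _ = q := one_mul _
    have h3 : η * (K * T) < η * ((Q : ℝ) + 1) := mul_lt_mul_of_pos_left (by linarith) hη
    linarith
  have hqlam : (R : ℝ) ^ lam ≤ (q : ℝ) ^ 2 := by
    by_contra hcon
    push Not at hcon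
    have h := hlow ξ hξ (hinv.lo p q hq1 hcon x hxI)
    have h2 : ξ * T < q := by
      have : ξ * T ≤ ξ * (K * T) := by
        apply mul_le_mul_of_nonneg_left _ hξ.le
        nlinarith
      linarith
    have h3 : (ξ * T) ^ 2 < (q : ℝ) ^ 2 :=
      pow_lt_pow_left₀ h2 (by positivity) (by norm_num)
    have h4 : (ξ * T) ^ 2 = ξ ^ 2 * V := by rw [← hTT]; ring
    linarith
  have hql : V ≤ (q : ℝ) ^ 2 := by
    by_contra hcon
    push Not at hcon
    have h := hlow ε₁ hε (hinv.hi p q hq1 hqlam hcon x hxI)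
    have h2 : T < q := by
      have : ε₁ * (K * T) = 256 * T := by rw [← hKε]; ring
      linarith
    have h3 : T ^ 2 < (q : ℝ) ^ 2 := pow_lt_pow_left₀ h2 hT0.le (by norm_num)
    have h4 : T ^ 2 = V := by rw [← hTT]; ring
    linarith
  have hTq : T ≤ q := by
    by_contra hcon
    push Not at hcon
    have h3 : (q : ℝ) ^ 2 < T ^ 2 := pow_lt_pow_left₀ hcon hq0.le (by norm_num)
    have h4 : T ^ 2 = V := by rw [← hTT]; ring
    linarith
  refine ⟨p, q, hq1, ?_, hql, ?_, ?_⟩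
  · rw [hp, hq]
    exact Int.isCoprime_iff_gcd_eq_one.mpr (by simpa [Int.gcd] using r.reduced)
  · have h1 : (q : ℝ) ≤ 2 * (K * T) := hqQ.trans hQ2
    have h2 : (q : ℝ) ^ 2 ≤ (2 * (K * T)) ^ 2 := pow_le_pow_left₀ hq0.le h1 2
    have h3 : (2 * (K * T)) ^ 2 = (512 / ε₁) ^ 2 * V := by
      rw [← hTT, hK]; ring
    linarith
  · have h1 : d * (K * V) ≤ 1 := by
      calc d * (K * V) = d * ((K * T) * T) := by rw [← hTT]; ring
        _ ≤ d * (((Q : ℝ) + 1) * q) := by
            apply mul_le_mul_of_nonneg_left _ hd0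
            apply mul_le_mul _ hTq hT0.le (by positivity)
            linarith
        _ ≤ 1 := hdQ
    have h2 : d * (256 * V) ≤ 1 := by
      have : d * (256 * V) ≤ d * (K * V) := by
        apply mul_le_mul_of_nonneg_left _ hd0
        exact mul_le_mul_of_nonneg_right hK256 hV0.le
      linarith
    rw [div_div, le_div_iff₀ (by positivity)]
    exact h2

end Pool.Agent.N217.EU
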