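import Pool.Agent.N217.EU.Stm

/-!
# Project EU: the assembly
-/

set_option autoImplicit false

namespace Pool.Agent.N217.EU

open Set Filter Topology

noncomputable section

namespace FinAux

/-- the data of the construction -/
structure Dat where
  r : ℕ
  m : ℕ → ℕ
  ξ' : ℕ → ℝ

/-- the state: level, last level of a special step, number of special steps, constant -/
structure St where
  L : ℕ
  lam : ℕ
  j : ℕ
  ξ : ℝ

/-- the step after stage `n` is special -/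
def Sp (D : Dat) (n : ℕ) (s : St) : Prop :=
  D.r * (s.L + 1 + D.m s.j) ≤ (D.r + 1) * (n + 1) ∧
    (((2 ^ D.r : ℕ) : ℝ)) ^ s.lam ≤ s.ξ ^ 2 * (((2 ^ D.r : ℕ) : ℝ)) ^ (s.L + 1)

open Classical in
/-- the next state -/
def nx (D : Dat) (n : ℕ) (s : St) : St :=
  if Sp D n s then ⟨s.L + 1 + D.m s.j, s.L + 1 + D.m s.j, s.j + 1, min s.ξ (D.ξ' s.j)⟩
  else ⟨s.L + 1, s.lam, s.j, s.ξ⟩

/-- the sequence of states -/
def st (D : Dat) : ℕ → St
  | 0 => ⟨0, 0, 0, 1⟩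
  | n + 1 => nx D n (st D n)

variable {D : Dat}

lemma nx_sp {n : ℕ} {s : St} (h : Sp D n s) :
    nx D n s = ⟨s.L + 1 + D.m s.j, s.L + 1 + D.m s.j, s.j + 1, min s.ξ (D.ξ' s.j)⟩ := by
  unfold nx; rw [if_pos h]

lemma nx_ns {n : ℕ} {s : St} (h : ¬ Sp D n s) :
    nx D n s = ⟨s.L + 1, s.lam, s.j, s.ξ⟩ := by
  unfold nx; rw [if_neg h]

lemma st_succ (n : ℕ) : st D (n + 1) = nx D n (st D n) := rfl

lemma lam_le (n : ℕ) : (st D n).lam ≤ (st D n).L := by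
  induction n with
  | zero => simp [st]
  | succ n ih =>
    rw [st_succ]
    by_cases h : Sp D n (st D n)
    · rw [nx_sp h]
    · rw [nx_ns h]; simp only; omega

lemma xi_pos (hξ : ∀ k, 0 < D.ξ' k) (n : ℕ) : 0 < (st D n).ξ := by
  induction n with
  | zero => simp [st]
  | succ n ih =>
    rw [st_succ]
    by_cases h : Sp D n (st D n)
    · rw [nx_sp h]; exact lt_min ih (hξ _)
    · rw [nx_ns h]; exact ih

lemma L_lt (n : ℕ) : (st D n).L < (st D (n + 1)).L := by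
  rw [st_succ]
  by_cases h : Sp D n (st D n)
  · rw [nx_sp h]; simp only; omega
  · rw [nx_ns h]; simp only; omega

lemma L_mono : StrictMono fun n => (st D n).L := strictMono_nat_of_lt_succ L_lt

lemma L_le (n : ℕ) : D.r * (st D n).L ≤ (D.r + 1) * n := by
  induction n with
  | zero => simp [st]
  | succ n ih =>
    rw [st_succ]
    by_cases h : Sp D n (st D n)
    · rw [nx_sp h]; exact h.1
    · rw [nx_ns h]; simp only; nlinarith

lemma exists_sp (hr : 1 ≤ D.r) (hξ : ∀ k, 0 < D.ξ' k) (n : ℕ) :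
    ∃ n', n ≤ n' ∧ Sp D n' (st D n') := by
  by_contra hcon
  push Not at hcon
  have hst : ∀ i, st D (n + i) = ⟨(st D n).L + i, (st D n).lam, (st D n).j, (st D n).ξ⟩ := by
    intro i
    induction i with
    | zero => rfl
    | succ i ih =>
      rw [← add_assoc, st_succ, nx_ns (hcon (n + i) (by omega)), ih]
      rfl
  set s := st D n with hs
  have hx : 0 < s.ξ := xi_pos hξ n
  have h2 : (1 : ℝ) < ((2 ^ D.r : ℕ) : ℝ) := by
    have : 1 < 2 ^ D.r := Nat.one_lt_two_pow (by omega)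
    exact_mod_cast this
  obtain ⟨i₀, hi₀⟩ := pow_unbounded_of_one_lt
    ((((2 ^ D.r : ℕ) : ℝ)) ^ s.lam / s.ξ ^ 2) h2
  set i := i₀ + D.r * (s.L + 1 + D.m s.j) with hi
  refine hcon (n + i) (by omega) ?_
  rw [hst i]
  refine ⟨?_, ?_⟩
  · simp only
    nlinarith [Nat.zero_le n, Nat.zero_le i₀]
  · simp only
    have hx2 : 0 < s.ξ ^ 2 := by positivity
    rw [div_lt_iff₀ hx2] at hi₀
    have h3 : (((2 ^ D.r : ℕ) : ℝ)) ^ i₀ ≤ (((2 ^ D.r : ℕ) : ℝ)) ^ (s.L + i + 1) :=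
      pow_le_pow_right₀ h2.le (by omega)
    nlinarith

lemma exists_sp_eq (hr : 1 ≤ D.r) (hξ : ∀ k, 0 < D.ξ' k) (j : ℕ) :
    ∃ n, Sp D n (st D n) ∧ (st D n).j = j := by
  classical
  have key : ∀ n, ∃ n', n ≤ n' ∧ Sp D n' (st D n') ∧ (st D n').j = (st D n).j := by
    intro n
    have hex : ∃ i, Sp D (n + i) (st D (n + i)) := by
      obtain ⟨n', h1, h2⟩ := exists_sp (D := D) hr hξ n
      exact ⟨n' - n, by rw [Nat.add_sub_cancel' h1]; exact h2⟩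
    refine ⟨n + Nat.find hex, by omega, Nat.find_spec hex, ?_⟩
    have : ∀ i, i ≤ Nat.find hex → (st D (n + i)).j = (st D n).j := by
      intro i
      induction i with
      | zero => intro _; rfl
      | succ i ih =>
        intro hi
        have h1 := Nat.find_min hex (show i < Nat.find hex by omega)
        rw [← add_assoc, st_succ, nx_ns h1]
        exact ih (by omega)
    exact this _ le_rfl
  induction j with
  | zero =>
    obtain ⟨n, -, h1, h2⟩ := key 0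
    exact ⟨n, h1, h2⟩
  | succ j ih =>
    obtain ⟨n, h1, h2⟩ := ih
    obtain ⟨n', -, h3, h4⟩ := key (n + 1)
    refine ⟨n', h3, ?_⟩
    rw [h4, st_succ, nx_sp h1]
    simp [h2]

/-- the tree -/
def Tr (D : Dat) (ε₁ ε₂ : ℝ) (n : ℕ) (y : ℝ) : Prop :=
  Inv ε₁ ε₂ (2 ^ D.r) (st D n).L (st D n).lam (st D n).ξ y ∧
    ∀ n', n = n' + 1 → Sp D n' (st D n') → ∃ p q : ℤ, 1 ≤ q ∧
      ∀ x ∈ Iv (2 ^ D.r) (st D n).L y, |q * x - p| * (q : ℝ) ≤ 1 / ((st D n').j + 1)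

lemma inv_zero (ε₁ ε₂ : ℝ) (r : ℕ) : Inv ε₁ ε₂ (2 ^ r) 0 0 1 0 := by
  refine ⟨?_, ?_, ?_⟩
  · intro a b h ha
    have : (1 : ℝ) ≤ a := by exact_mod_cast h.1
    rw [pow_zero] at ha
    linarith
  · intro p q hq h
    have : (1 : ℝ) ≤ q := by exact_mod_cast hq
    rw [pow_zero] at h
    nlinarith
  · intro p q hq h h'
    rw [pow_zero] at h h'
    linarith

lemma branch {r : ℕ} (hD : D.r = r) {ε₁ ε₂ : ℝ}
    (hgen : ∀ (l lam : ℕ) (ξ y : ℝ), lam ≤ l → Inv ε₁ ε₂ (2 ^ r) l lam ξ y →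
      ∃ f : Fin (2 ^ (r - 2)) → ℝ,
      (∀ e, Inv ε₁ ε₂ (2 ^ r) (l + 1) lam ξ (f e) ∧ Iv (2 ^ r) (l + 1) (f e) ⊆ Iv (2 ^ r) l y) ∧
      ∀ e e', e ≠ e' → ∀ x ∈ Iv (2 ^ r) (l + 1) (f e), ∀ x' ∈ Iv (2 ^ r) (l + 1) (f e'),
        1 / 64 / ((2 ^ r : ℕ) : ℝ) ^ (l + 1) ≤ |x - x'|)
    (hξ : ∀ k, 0 < D.ξ' k)
    (hsp : ∀ (k l lam : ℕ) (ξ y : ℝ), lam ≤ l → 0 < ξ →
      (((2 ^ r : ℕ) : ℝ)) ^ lam ≤ ξ ^ 2 * (((2 ^ r : ℕ) : ℝ)) ^ l → Inv ε₁ ε₂ (2 ^ r) l lam ξ y →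
      ∃ y' : ℝ, Inv ε₁ ε₂ (2 ^ r) (l + D.m k) (l + D.m k) (min ξ (D.ξ' k)) y' ∧
        Iv (2 ^ r) (l + D.m k) y' ⊆ Iv (2 ^ r) l y ∧
        ∃ p q : ℤ, 1 ≤ q ∧ ∀ x ∈ Iv (2 ^ r) (l + D.m k) y', |q * x - p| * (q : ℝ) ≤ 1 / (k + 1))
    (n : ℕ) (y : ℝ) (hy : Tr D ε₁ ε₂ n y) :
    ∃ f : Fin (2 ^ (r - 2)) → ℝ,
      (∀ e, Tr D ε₁ ε₂ (n + 1) (f e) ∧
        Iv (2 ^ r) (st D (n + 1)).L (f e) ⊆ Iv (2 ^ r) (st D n).L y) ∧
      ∀ e e', e ≠ e' → ∀ x ∈ Iv (2 ^ r) (st D (n + 1)).L (f e),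
        ∀ x' ∈ Iv (2 ^ r) (st D (n + 1)).L (f e'),
        1 / 64 / ((2 ^ r : ℕ) : ℝ) ^ ((st D n).L + 1) ≤ |x - x'| := by
  subst hD
  obtain ⟨f, hf, hsep⟩ := hgen _ _ _ _ (lam_le n) hy.1
  by_cases h : Sp D n (st D n)
  · have hx := xi_pos hξ n
    have hlam := lam_le (D := D) n
    choose f' h1 h2 h3 using fun e => hsp (st D n).j ((st D n).L + 1) (st D n).lam (st D n).ξ (f e)
      (by omega) hx h.2 (hf e).1
    have hst : st D (n + 1) = ⟨(st D n).L + 1 + D.m (st D n).j, (st D n).L + 1 + D.m (st D n).j,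
        (st D n).j + 1, min (st D n).ξ (D.ξ' (st D n).j)⟩ := by
      rw [st_succ, nx_sp h]
    refine ⟨f', ?_, ?_⟩
    · intro e
      refine ⟨⟨?_, ?_⟩, ?_⟩
      · rw [hst]; exact h1 e
      · intro n' hn' _
        have hnn : n' = n := by omega
        subst hnn
        rw [hst]
        exact h3 e
      · rw [hst]
        exact (h2 e).trans (hf e).2
    · intro e e' hee x hx1 x' hx2
      rw [hst] at hx1 hx2
      exact hsep e e' hee x (h2 e hx1) x' (h2 e' hx2)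
  · have hst : st D (n + 1) = ⟨(st D n).L + 1, (st D n).lam, (st D n).j, (st D n).ξ⟩ := by
      rw [st_succ, nx_ns h]
    refine ⟨f, ?_, ?_⟩
    · intro e
      refine ⟨⟨?_, ?_⟩, ?_⟩
      · rw [hst]; exact (hf e).1
      · intro n' hn' hs
        have hnn : n' = n := by omega
        subst hnn
        exact absurd hs h
      · rw [hst]
        exact (hf e).2
    · intro e e' hee x hx1 x' hx2
      rw [hst] at hx1 hx2
      exact hsep e e' hee x hx1 x' hx2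

lemma num {r : ℕ} (hr : 10 ≤ r) (hD : D.r = r) (n : ℕ) :
    ((((2 ^ (r - 2) : ℕ) : ℝ)) ^ n)⁻¹ ≤ ((64 * (2 : NNReal) ^ r : NNReal) : ℝ) *
      (1 / 64 / (((2 ^ r : ℕ) : ℝ)) ^ ((st D n).L + 1)) ^
        ((((r : NNReal) - 2) / ((r : NNReal) + 1) : NNReal) : ℝ) := by
  have hL := L_le (D := D) n
  rw [hD] at hL
  set L := (st D n).L with hLdef
  have hr' : (10 : ℝ) ≤ r := by exact_mod_cast hr
  have hrN : (2 : NNReal) ≤ r := by
    have : (10 : NNReal) ≤ r := by exact_mod_cast hr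
    exact le_trans (by norm_num) this
  have hs : ((((r : NNReal) - 2) / ((r : NNReal) + 1) : NNReal) : ℝ) = ((r : ℝ) - 2) / (r + 1) := by
    rw [NNReal.coe_div, NNReal.coe_sub hrN]
    push_cast
    ring
  rw [hs]
  set s : ℝ := ((r : ℝ) - 2) / (r + 1) with hsd
  have hs0 : 0 ≤ s := by
    apply div_nonneg <;> linarith
  have hs1 : s ≤ 1 := by
    rw [hsd, div_le_one (by linarith)]; linarith
  have e1 : ((64 * (2 : NNReal) ^ r : NNReal) : ℝ) = (2 : ℝ) ^ ((6 : ℝ) + r) := by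
    push_cast
    rw [Real.rpow_add (by norm_num), Real.rpow_natCast]
    norm_num
  have e2 : (1 / 64 / (((2 ^ r : ℕ) : ℝ)) ^ (L + 1)) = (2 : ℝ) ^ (-(6 : ℝ) - r * (L + 1)) := by
    rw [Real.rpow_sub (by norm_num), Real.rpow_neg (by norm_num)]
    push_cast
    rw [← pow_mul]
    rw [show (r : ℝ) * (L + 1) = ((r * (L + 1) : ℕ) : ℝ) by push_cast; ring, Real.rpow_natCast]
    norm_num
  have e3 : ((((2 ^ (r - 2) : ℕ) : ℝ)) ^ n)⁻¹ = (2 : ℝ) ^ (-(((r : ℝ) - 2) * n)) := by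
    push_cast
    rw [← pow_mul, Real.rpow_neg (by norm_num)]
    rw [show ((r : ℝ) - 2) * n = (((r - 2) * n : ℕ) : ℝ) by
      rw [Nat.cast_mul, Nat.cast_sub (by omega)]; push_cast; ring, Real.rpow_natCast]
  rw [e1, e2, e3, ← Real.rpow_mul (by norm_num), ← Real.rpow_add (by norm_num)]
  apply Real.rpow_le_rpow_of_exponent_le (by norm_num)
  have hLr : (r : ℝ) * L ≤ (r + 1) * n := by exact_mod_cast hL
  have h1 : s * (r * L) ≤ ((r : ℝ) - 2) * n := by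
    calc s * (r * L) ≤ s * ((r + 1) * n) := by gcongr
      _ = ((r : ℝ) - 2) * n := by rw [hsd]; field_simp
  nlinarith

end FinAux

open FinAux in
/-- the lower bound -/
theorem lower (hg : S_GEN) (hs : S_SPE) (hc : S_CAN) (hd : S_DI) (r : ℕ) (hr : 10 ≤ r) :
    ((((r : NNReal) - 2) / ((r : NNReal) + 1) : NNReal) : ENNReal) ≤ dimH (DI2 \ BA) := by
  obtain ⟨εg, hεg, hgen⟩ := hg r hr
  obtain ⟨εs, hεs, hspe⟩ := hs (2 ^ r) (by
    calc 2 = 2 ^ 1 := rfl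
      _ ≤ 2 ^ r := Nat.pow_le_pow_right (by norm_num) (by omega)) (min εg 1) (by positivity)
      (min_le_right _ _)
  choose m ξ' hm hξ' hsp using hspe
  set ε₁ := min εg 1 with hε₁
  set ε₂ := min εg εs with hε₂
  have h1 : 0 < ε₁ := by positivity
  have h2 : 0 < ε₂ := by positivity
  set D : Dat := ⟨r, m, ξ'⟩ with hDdef
  have hbr := branch (D := D) rfl (ε₁ := ε₁) (ε₂ := ε₂)
    (hgen ε₁ ε₂ h1 (min_le_left _ _) h2 (min_le_left _ _)) hξ'
    (fun k l lam ξ y h3 h4 h5 h6 => hsp k ε₂ h2 (min_le_right _ _) l lam ξ y h3 h4 h5 h6)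
  have h2r : 2 ≤ 2 ^ r := by
    calc 2 = 2 ^ 1 := rfl
      _ ≤ 2 ^ r := Nat.pow_le_pow_right (by norm_num) (by omega)
  have hM : 2 ≤ 2 ^ (r - 2) := by
    calc 2 = 2 ^ 1 := rfl
      _ ≤ 2 ^ (r - 2) := Nat.pow_le_pow_right (by norm_num) (by omega)
  have hspos : 0 < (((r : NNReal) - 2) / ((r : NNReal) + 1) : NNReal) := by
    have h10 : (10 : NNReal) ≤ r := by exact_mod_cast hr
    apply div_pos
    · exact tsub_pos_of_lt (lt_of_lt_of_le (by norm_num) h10)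
    · positivity
  have hcan := hc (2 ^ r) (2 ^ (r - 2)) (fun n => (st D n).L) (Tr D ε₁ ε₂) 0
    (((r : NNReal) - 2) / ((r : NNReal) + 1)) (64 * 2 ^ r) h2r hM hspos rfl L_mono
    ⟨inv_zero ε₁ ε₂ r, fun n' h => by omega⟩ hbr (fun n => num hr rfl n)
  refine hcan.trans (dimH_mono ?_)
  rintro x ⟨y, hy⟩
  have hRr : (1 : ℝ) < ((2 ^ r : ℕ) : ℝ) := by exact_mod_cast (by omega : 1 < 2 ^ r)
  refine ⟨?_, ?_⟩
  · refine hd x ε₂ h2 fun a b hab => ?_
    obtain ⟨n, hn⟩ := pow_unbounded_of_one_lt (a : ℝ) hRr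
    have h3 : (a : ℝ) < (((2 ^ r : ℕ) : ℝ)) ^ (st D n).L :=
      lt_of_lt_of_le hn (pow_le_pow_right₀ hRr.le (L_mono.le_apply (x := n)))
    exact (hy n).1.1.ob a b hab h3 x (hy n).2
  · rintro ⟨δ, hδ, hδ'⟩
    obtain ⟨j, hj⟩ := exists_nat_one_div_lt hδ
    obtain ⟨n, hn1, hn2⟩ := exists_sp_eq (D := D) (by show 1 ≤ r; omega) hξ' j
    obtain ⟨p, q, hq, hpq⟩ := (hy (n + 1)).1.2 n rfl hn1
    have h4 := hpq x (hy (n + 1)).2
    have h5 := hδ' p q (by omega)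
    rw [hn2] at h4
    have hq' : (0 : ℝ) < q := by exact_mod_cast (by omega : 0 < q)
    rw [abs_of_pos hq'] at h5
    linarith

/-- The result. -/
theorem t_fin (hg : S_GEN) (hs : S_SPE) (hc : S_CAN) (hd : S_DI) : S_FIN := by
  refine le_antisymm ?_ ?_
  · calc dimH (DI2 \ BA) ≤ dimH (univ : Set ℝ) := dimH_mono (subset_univ _)
      _ = 1 := Real.dimH_univ
  · by_contra hcon
    push Not at hcon
    have hne : dimH (DI2 \ BA) ≠ ⊤ := (hcon.trans ENNReal.one_lt_top).ne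
    set d := (dimH (DI2 \ BA)).toReal with hd'
    have hd1 : d < 1 := by
      rw [hd', ← ENNReal.toReal_one]
      exact (ENNReal.toReal_lt_toReal hne ENNReal.one_ne_top).2 hcon
    obtain ⟨n, hn⟩ := exists_nat_gt (3 / (1 - d))
    set r := n + 10 with hr
    have hr10 : 10 ≤ r := by omega
    have h1 := lower hg hs hc hd r hr10
    have h2 := ENNReal.toReal_mono hne h1
    rw [ENNReal.coe_toReal, ← hd'] at h2
    have hrN : (2 : NNReal) ≤ r := by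
      have : (10 : NNReal) ≤ r := by exact_mod_cast hr10
      exact le_trans (by norm_num) this
    have hs' : ((((r : NNReal) - 2) / ((r : NNReal) + 1) : NNReal) : ℝ) =
        ((r : ℝ) - 2) / (r + 1) := by
      rw [NNReal.coe_div, NNReal.coe_sub hrN]
      push_cast
      ring
    rw [hs'] at h2
    have hrr : (n : ℝ) ≤ r := by rw [hr]; push_cast; linarith
    have hr0 : (0 : ℝ) < (r : ℝ) + 1 := by positivity
    rw [div_le_iff₀ hr0] at h2
    rw [div_lt_iff₀ (by linarith)] at hn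
    nlinarith

end

end Pool.Agent.N217.EU
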