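import Pool.Agent.N217.EU.Stm

/-!
# Project EU, part GEN: the generic step (helper695)
-/

set_option autoImplicit false

namespace Pool.Agent.N217.EU

open Set

namespace GEN

noncomputable section

/-- the set of indices in `S_CNT` -/
def BS (P : Set ℝ) (A ρ T y : ℝ) (R : ℕ) : Set ℕ :=
  {i : ℕ | i < R ∧ ∃ u ∈ P, ∃ x : ℝ, y + i * (1 / 64 / (T * R)) ≤ x ∧
      x ≤ y + (i + 1) * (1 / 64 / (T * R)) ∧ |x - u| < ρ / A}

lemma BS_fin (P : Set ℝ) (A ρ T y : ℝ) (R : ℕ) : (BS P A ρ T y R).Finite :=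
  (Set.finite_lt_nat R).subset fun _ hi => hi.1

/-- centers of the obstacles -/
def P1 (A : ℝ) : Set ℝ := {u | ∃ a b : ℤ, Ob a b ∧ A ≤ a ∧ (a : ℝ) < 2 * A ∧ u = -(b : ℝ) / (2 * a)}

/-- fractions -/
def P2 (A : ℝ) : Set ℝ := {u | ∃ p q : ℤ, 1 ≤ q ∧ A ≤ (q : ℝ) ^ 2 ∧ (q : ℝ) ^ 2 < 2 * A ∧ u = (p : ℝ) / q}

lemma P1_sep (h1 : S_SP) (A : ℝ) (hA : 0 < A) : ∀ u ∈ P1 A, ∀ v ∈ P1 A, u ≠ v → 1 / (2 * A) ≤ |u - v| := by
  rintro u ⟨a, b, hab, ha1, ha2, rfl⟩ v ⟨a', b', hab', ha1', ha2', rfl⟩ huv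
  refine h1 A a b a' b' hA hab hab' ha1 ha2 ha1' ha2' ?_
  intro h
  rw [Prod.mk.injEq] at h
  apply huv
  rw [h.1, h.2]

lemma P2_sep (A : ℝ) (hA : 0 < A) : ∀ u ∈ P2 A, ∀ v ∈ P2 A, u ≠ v → 1 / (2 * A) ≤ |u - v| := by
  rintro u ⟨p, q, hq, hq1, hq2, rfl⟩ v ⟨p', q', hq', hq1', hq2', rfl⟩ huv
  have hq0 : (0 : ℝ) < q := by exact_mod_cast (by omega : 0 < q)
  have hq0' : (0 : ℝ) < q' := by exact_mod_cast (by omega : 0 < q')
  have e : (p : ℝ) / q - p' / q' = ((p * q' - p' * q : ℤ) : ℝ) / (q * q') := by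
    push_cast
    field_simp
  have hne : p * q' - p' * q ≠ 0 := by
    intro h
    apply huv
    have : (p : ℝ) / q - p' / q' = 0 := by rw [e, h]; simp
    linarith
  have h1 : (1 : ℝ) ≤ |((p * q' - p' * q : ℤ) : ℝ)| := by
    rw [← Int.cast_abs]
    exact_mod_cast Int.one_le_abs hne
  have h2 : (q : ℝ) * q' ≤ 2 * A := by
    have : ((q : ℝ) * q') ^ 2 ≤ (2 * A) ^ 2 := by
      have := mul_le_mul hq2.le hq2'.le (by positivity) (by positivity)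
      nlinarith
    exact (sq_le_sq₀ (by positivity) (by positivity)).1 this
  rw [e, abs_div, abs_of_pos (by positivity : (0 : ℝ) < q * q')]
  calc 1 / (2 * A) ≤ 1 / ((q : ℝ) * q') := one_div_le_one_div_of_le (by positivity) h2
    _ ≤ _ := div_le_div_of_nonneg_right h1 (by positivity)

lemma find_i (T z : ℝ) (r : ℕ) (h1 : T ≤ z) (h2 : z < T * 2 ^ r) :
    ∃ i < r, 2 ^ i * T ≤ z ∧ z < 2 * (2 ^ i * T) := by
  induction r with
  | zero => simp at h2; linarith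
  | succ r ih =>
    by_cases h : z < T * 2 ^ r
    · obtain ⟨i, hi, h3⟩ := ih h
      exact ⟨i, by omega, h3⟩
    · refine ⟨r, by omega, by linarith, ?_⟩
      rw [pow_succ] at h2
      linarith

lemma r_bound (r : ℕ) (hr : 10 ≤ r) : 64 * (r : ℝ) ≤ 2 ^ r := by
  have : 64 * r ≤ 2 ^ r := by
    induction r, hr using Nat.le_induction with
    | base => norm_num
    | succ n hn ih =>
      rw [pow_succ]
      omega
  exact_mod_cast this

lemma cnt_i (h2 : S_CNT) (P : Set ℝ) (T y ρ : ℝ) (r i : ℕ) (hT : 0 < T) (hρ : 0 < ρ) (hρ4 : ρ ≤ 1 / 4)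
    (hP : ∀ u ∈ P, ∀ v ∈ P, u ≠ v → 1 / (2 * (2 ^ i * T)) ≤ |u - v|) :
    (((BS P (2 ^ i * T) ρ T y (2 ^ r)).ncard : ℕ) : ℝ) ≤
      4 * ρ * 2 ^ r + 2 ^ i / 16 + 256 * ρ * 2 ^ r * (1 / 2) ^ i + 4 := by
  have h := h2 P (2 ^ i * T) ρ T y (2 ^ r) (by positivity) hρ hρ4 hT Nat.one_le_two_pow hP
  refine h.trans (le_of_eq ?_)
  have h3 : (2 : ℝ) ^ i ≠ 0 := by positivity
  push_cast
  rw [one_div, inv_pow]
  field_simp
  ring

lemma sum_bound (r : ℕ) (hr : 10 ≤ r) (ρ : ℝ) (hρ : 0 < ρ) (h : ρ * (8 * r + 1024) ≤ 1 / 4) :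
    ∑ i ∈ Finset.range r, 2 * (4 * ρ * 2 ^ r + 2 ^ i / 16 + 256 * ρ * 2 ^ r * (1 / 2) ^ i + 4) ≤
      (2 : ℝ) ^ r / 2 := by
  have h1 : ∑ i ∈ Finset.range r, (2 : ℝ) ^ i = 2 ^ r - 1 := by
    rw [geom_sum_eq (by norm_num)]
    norm_num
  have h2 : ∑ i ∈ Finset.range r, (1 / 2 : ℝ) ^ i ≤ 2 := sum_geometric_two_le r
  have h3 := r_bound r hr
  have h6 : ∑ i ∈ Finset.range r, 256 * ρ * 2 ^ r * (1 / 2 : ℝ) ^ i =
      256 * ρ * 2 ^ r * ∑ i ∈ Finset.range r, (1 / 2 : ℝ) ^ i := (Finset.mul_sum _ _ _).symm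
  rw [← Finset.mul_sum, Finset.sum_add_distrib, Finset.sum_add_distrib, Finset.sum_add_distrib,
    ← Finset.sum_div, h1, h6]
  simp only [Finset.sum_const, Finset.card_range, nsmul_eq_mul]
  have h4 : 256 * ρ * 2 ^ r * ∑ i ∈ Finset.range r, (1 / 2 : ℝ) ^ i ≤ 256 * ρ * 2 ^ r * 2 :=
    mul_le_mul_of_nonneg_left h2 (by positivity)
  have h5 : ρ * (8 * r + 1024) * 2 ^ r ≤ 1 / 4 * 2 ^ r := mul_le_mul_of_nonneg_right h (by positivity)
  nlinarith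

/-- the good indices -/
lemma good (h1 : S_SP) (h2 : S_CNT) (r : ℕ) (hr : 10 ≤ r) (ρ T y : ℝ) (hT : 0 < T) (hρ : 0 < ρ)
    (hρ1 : ρ * (8 * r + 1024) ≤ 1 / 4) :
    ∃ G : Finset ℕ, 2 ^ (r - 1) ≤ G.card ∧ ∀ i ∈ G, i < 2 ^ r ∧ ∀ j < r,
      (∀ u ∈ P1 (2 ^ j * T), ∀ x : ℝ, y + i * (1 / 64 / (T * 2 ^ r)) ≤ x →
        x ≤ y + (i + 1) * (1 / 64 / (T * 2 ^ r)) → ρ / (2 ^ j * T) ≤ |x - u|) ∧
      (∀ u ∈ P2 (2 ^ j * T), ∀ x : ℝ, y + i * (1 / 64 / (T * 2 ^ r)) ≤ x →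
        x ≤ y + (i + 1) * (1 / 64 / (T * 2 ^ r)) → ρ / (2 ^ j * T) ≤ |x - u|) := by
  classical
  have hρ4 : ρ ≤ 1 / 4 := by
    have : (0 : ℝ) ≤ r := by positivity
    nlinarith
  set F1 : ℕ → Finset ℕ := fun j => (BS_fin (P1 (2 ^ j * T)) (2 ^ j * T) ρ T y (2 ^ r)).toFinset with hF1
  set F2 : ℕ → Finset ℕ := fun j => (BS_fin (P2 (2 ^ j * T)) (2 ^ j * T) ρ T y (2 ^ r)).toFinset with hF2
  set B : Finset ℕ := (Finset.range r).biUnion (fun j => F1 j ∪ F2 j) with hB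
  have hBc : (B.card : ℝ) ≤ (2 : ℝ) ^ r / 2 := by
    have e1 : B.card ≤ ∑ j ∈ Finset.range r, ((F1 j).card + (F2 j).card) :=
      Finset.card_biUnion_le.trans (Finset.sum_le_sum fun j _ => Finset.card_union_le _ _)
    have e2 : (B.card : ℝ) ≤ ∑ j ∈ Finset.range r, (((F1 j).card : ℝ) + ((F2 j).card : ℝ)) := by
      exact_mod_cast e1
    refine e2.trans (le_trans (Finset.sum_le_sum fun j _ => ?_) (sum_bound r hr ρ hρ hρ1))
    have e3 := cnt_i h2 (P1 (2 ^ j * T)) T y ρ r j hT hρ hρ4 (P1_sep h1 _ (by positivity))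
    have e4 := cnt_i h2 (P2 (2 ^ j * T)) T y ρ r j hT hρ hρ4 (P2_sep _ (by positivity))
    rw [Set.ncard_eq_toFinset_card _ (BS_fin _ _ _ _ _ _)] at e3 e4
    simp only [hF1, hF2]
    linarith
  have hBn : B.card ≤ 2 ^ (r - 1) := by
    have : (2 : ℝ) ^ r / 2 = 2 ^ (r - 1) := by
      obtain ⟨k, rfl⟩ : ∃ k, r = k + 1 := ⟨r - 1, by omega⟩
      rw [pow_succ, Nat.add_sub_cancel]
      ring
    rw [this] at hBc
    exact_mod_cast hBc
  refine ⟨Finset.range (2 ^ r) \ B, ?_, ?_⟩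
  · have e1 := Finset.le_card_sdiff B (Finset.range (2 ^ r))
    rw [Finset.card_range] at e1
    have e2 : 2 ^ r = 2 * 2 ^ (r - 1) := by
      obtain ⟨k, rfl⟩ : ∃ k, r = k + 1 := ⟨r - 1, by omega⟩
      rw [pow_succ, Nat.add_sub_cancel]
      ring
    omega
  · intro i hi
    rw [Finset.mem_sdiff, Finset.mem_range] at hi
    obtain ⟨hi1, hi2⟩ := hi
    refine ⟨hi1, fun j hj => ⟨fun u hu x hx1 hx2 => ?_, fun u hu x hx1 hx2 => ?_⟩⟩
    · by_contra hc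
      apply hi2
      rw [hB, Finset.mem_biUnion]
      refine ⟨j, Finset.mem_range.2 hj, Finset.mem_union_left _ ?_⟩
      simp only [hF1, Set.Finite.mem_toFinset]
      refine ⟨hi1, u, hu, x, ?_, ?_, not_le.1 hc⟩
      · push_cast; exact hx1
      · push_cast; exact hx2
    · by_contra hc
      apply hi2
      rw [hB, Finset.mem_biUnion]
      refine ⟨j, Finset.mem_range.2 hj, Finset.mem_union_right _ ?_⟩
      simp only [hF2, Set.Finite.mem_toFinset]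
      refine ⟨hi1, u, hu, x, ?_, ?_, not_le.1 hc⟩
      · push_cast; exact hx1
      · push_cast; exact hx2

lemma parity (G : Finset ℕ) (r : ℕ) (hr : 2 ≤ r) (h : 2 ^ (r - 1) ≤ G.card) :
    ∃ g : Fin (2 ^ (r - 2)) → ℕ, (∀ e, g e ∈ G) ∧ ∀ e e', e ≠ e' → g e + 2 ≤ g e' ∨ g e' + 2 ≤ g e := by
  classical
  have h1 : (G.filter (fun i => i % 2 = 0)).card + (G.filter (fun i => ¬ i % 2 = 0)).card = G.card :=
    Finset.card_filter_add_card_filter_not _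
  have h2 : 2 ^ (r - 1) = 2 * 2 ^ (r - 2) := by
    obtain ⟨k, rfl⟩ : ∃ k, r = k + 2 := ⟨r - 2, by omega⟩
    have : k + 2 - 1 = k + 1 := by omega
    rw [this, pow_succ, Nat.add_sub_cancel]
    ring
  obtain ⟨s, hs1, hs2, hs3⟩ : ∃ s : Finset ℕ, 2 ^ (r - 2) ≤ s.card ∧ s ⊆ G ∧
      ∀ i ∈ s, ∀ j ∈ s, i % 2 = j % 2 := by
    by_cases hc : 2 ^ (r - 2) ≤ (G.filter (fun i => i % 2 = 0)).card
    · refine ⟨_, hc, Finset.filter_subset _ _, ?_⟩
      intro i hi j hj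
      rw [Finset.mem_filter] at hi hj
      omega
    · refine ⟨G.filter (fun i => ¬ i % 2 = 0), by omega, Finset.filter_subset _ _, ?_⟩
      intro i hi j hj
      rw [Finset.mem_filter] at hi hj
      omega
  refine ⟨fun e => s.orderEmbOfCardLe hs1 e, fun e => hs2 (Finset.orderEmbOfCardLe_mem _ _ _), ?_⟩
  intro e e' hee
  have h3 : s.orderEmbOfCardLe hs1 e ≠ s.orderEmbOfCardLe hs1 e' := by
    intro h4
    exact hee ((s.orderEmbOfCardLe hs1).injective h4)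
  have h4 := hs3 _ (Finset.orderEmbOfCardLe_mem s hs1 e) _ (Finset.orderEmbOfCardLe_mem s hs1 e')
  beta_reduce
  omega

end

end GEN

open GEN

theorem t_gen (h1 : S_SP) (h2 : S_CNT) : S_GEN := by
  intro r hr
  have hr0 : (0 : ℝ) ≤ r := by positivity
  refine ⟨1 / (32 * r + 4096), by positivity, ?_⟩
  set ρ : ℝ := 1 / (32 * r + 4096) with hρdef
  intro ε₁ ε₂ hε₁ hε₁' hε₂ hε₂' l lam ξ y hlam hinv
  have hρ : 0 < ρ := by positivity
  have hρ1 : ρ * (8 * r + 1024) ≤ 1 / 4 := by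
    rw [hρdef, div_mul_eq_mul_div, div_le_div_iff₀ (by positivity) (by norm_num)]
    linarith
  set R : ℕ := 2 ^ r with hR
  have hRr : (R : ℝ) = 2 ^ r := by rw [hR]; push_cast; rfl
  have hR0 : (0 : ℝ) < (R : ℝ) := by rw [hRr]; positivity
  have hR1 : (1 : ℝ) ≤ (R : ℝ) := by rw [hRr]; exact one_le_pow₀ (by norm_num)
  set T : ℝ := (R : ℝ) ^ l with hTdef
  have hT : 0 < T := by positivity
  obtain ⟨G, hG1, hG2⟩ := good h1 h2 r hr ρ T y hT hρ hρ1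
  obtain ⟨g, hg1, hg2⟩ := parity G r (by omega) hG1
  set w : ℝ := 1 / 64 / (R : ℝ) ^ (l + 1) with hw
  have hw0 : 0 < w := by positivity
  have hw1 : 1 / 64 / (T * 2 ^ r) = w := by rw [hw, pow_succ, ← hTdef, hRr]
  have hmem : ∀ i : ℕ, ∀ x ∈ Iv R (l + 1) (y + i * w), y + i * w ≤ x ∧ x ≤ y + (i + 1) * w := by
    intro i x hx
    refine ⟨hx.1, ?_⟩
    have := hx.2
    rw [← hw] at this
    linarith
  have hsub : ∀ i ∈ G, Iv R (l + 1) (y + i * w) ⊆ Iv R l y := by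
    intro i hi x hx
    obtain ⟨h3, h4⟩ := hmem i x hx
    have h5 : ((i : ℝ) + 1) ≤ R := by
      have := (hG2 i hi).1
      exact_mod_cast this
    have h6 : (R : ℝ) * w = 1 / 64 / (R : ℝ) ^ l := by
      rw [hw, pow_succ]
      field_simp
    refine ⟨?_, ?_⟩
    · have : 0 ≤ (i : ℝ) * w := by positivity
      linarith
    · rw [← h6]
      have : ((i : ℝ) + 1) * w ≤ R * w := mul_le_mul_of_nonneg_right h5 hw0.le
      linarith
  refine ⟨fun e => y + g e * w, fun e => ⟨⟨?_, ?_, ?_⟩, hsub _ (hg1 e)⟩, ?_⟩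
  · intro a b hab ha x hx
    have hxl := hsub _ (hg1 e) hx
    by_cases hc : (a : ℝ) < (R : ℝ) ^ l
    · exact hinv.ob a b hab hc x hxl
    · rw [not_lt] at hc
      obtain ⟨j, hj, hj1, hj2⟩ := find_i T a r hc (by rw [pow_succ, hRr] at ha; rw [hTdef, hRr]; exact ha)
      obtain ⟨h3, h4⟩ := hmem _ x hx
      have h5 := ((hG2 _ (hg1 e)).2 j hj).1 (-(b : ℝ) / (2 * a)) ⟨a, b, hab, hj1, hj2, rfl⟩ x
        (by rw [hw1]; exact h3) (by rw [hw1]; exact h4)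
      have ha0 : (0 : ℝ) < a := lt_of_lt_of_le (by positivity) hj1
      have e1 : 2 * (a : ℝ) * x + b = 2 * a * (x - -(b : ℝ) / (2 * a)) := by
        field_simp
        ring
      rw [e1, abs_mul, abs_of_pos (by positivity : (0 : ℝ) < 2 * a)]
      have e2 : ρ ≤ 2 * (a : ℝ) * (ρ / (2 ^ j * T)) := by
        rw [mul_div_assoc', le_div_iff₀ (by positivity)]
        nlinarith
      have e3 : 2 * (a : ℝ) * (ρ / (2 ^ j * T)) ≤ 2 * (a : ℝ) * |x - -(b : ℝ) / (2 * a)| :=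
        mul_le_mul_of_nonneg_left h5 (by positivity)
      linarith
  · intro p q hq hq2 x hx
    exact hinv.lo p q hq hq2 x (hsub _ (hg1 e) hx)
  · intro p q hq hq1 hq2 x hx
    have hxl := hsub _ (hg1 e) hx
    by_cases hc : (q : ℝ) ^ 2 < (R : ℝ) ^ l
    · exact hinv.hi p q hq hq1 hc x hxl
    · rw [not_lt] at hc
      obtain ⟨j, hj, hj1, hj2⟩ := find_i T ((q : ℝ) ^ 2) r hc
        (by rw [pow_succ, hRr] at hq2; rw [hTdef, hRr]; exact hq2)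
      obtain ⟨h3, h4⟩ := hmem _ x hx
      have h5 := ((hG2 _ (hg1 e)).2 j hj).2 ((p : ℝ) / q) ⟨p, q, hq, hj1, hj2, rfl⟩ x
        (by rw [hw1]; exact h3) (by rw [hw1]; exact h4)
      refine le_trans ?_ h5
      exact div_le_div₀ hρ.le hε₁' (by positivity) hj1
  · intro e e' hee x hx x' hx'
    obtain ⟨h3, h4⟩ := hmem _ x hx
    obtain ⟨h5, h6⟩ := hmem _ x' hx'
    rcases hg2 e e' hee with h | h
    · have h7 : (g e : ℝ) + 2 ≤ g e' := by exact_mod_cast h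
      have h8 : ((g e : ℝ) + 2) * w ≤ g e' * w := mul_le_mul_of_nonneg_right h7 hw0.le
      rw [abs_sub_comm]
      refine le_trans ?_ (le_abs_self _)
      nlinarith
    · have h7 : (g e' : ℝ) + 2 ≤ g e := by exact_mod_cast h
      have h8 : ((g e' : ℝ) + 2) * w ≤ g e * w := mul_le_mul_of_nonneg_right h7 hw0.le
      refine le_trans ?_ (le_abs_self _)
      nlinarith

end Pool.Agent.N217.EU
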