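import Pool.Agent.N217.EU.Stm

/-!
# Project EU, leaf RED: reduction of positive definite binary forms
-/

set_option autoImplicit false

namespace Pool.Agent.N217.EU

namespace RED

/-- the form -/
noncomputable def F (A B C : ℝ) (v : ℤ × ℤ) : ℝ :=
  A * (v.1 : ℝ) ^ 2 + B * v.1 * v.2 + C * (v.2 : ℝ) ^ 2

lemma int_abs_le_of_sq_le {n : ℤ} {N : ℕ} (h : (n : ℝ) ^ 2 ≤ N) : -(N : ℤ) ≤ n ∧ n ≤ N := by
  have h1 : n ^ 2 ≤ (N : ℤ) := by exact_mod_cast h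
  constructor
  · by_contra hc
    push Not at hc
    nlinarith
  · by_contra hc
    push Not at hc
    nlinarith

lemma exists_min (A B C : ℝ) (hA : 0 < A) (hD : B ^ 2 < 4 * A * C) :
    ∃ v : ℤ × ℤ, v ≠ 0 ∧ ∀ w : ℤ × ℤ, w ≠ 0 → F A B C v ≤ F A B C w := by
  classical
  have hC : 0 < C := by
    by_contra h
    push Not at h
    nlinarith [sq_nonneg B]
  set D : ℝ := 4 * A * C - B ^ 2 with hDdef
  have hDpos : 0 < D := by rw [hDdef]; linarith
  obtain ⟨N, hN⟩ := exists_nat_ge (max 1 (max (4 * C * A / D) (4 * A * A / D)))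
  have hN1 : (1 : ℝ) ≤ N := le_trans (le_max_left _ _) hN
  have hN2 : 4 * C * A / D ≤ N := le_trans (le_trans (le_max_left _ _) (le_max_right _ _)) hN
  have hN3 : 4 * A * A / D ≤ N := le_trans (le_trans (le_max_right _ _) (le_max_right _ _)) hN
  have hN1' : 1 ≤ N := by exact_mod_cast hN1
  let S : Finset (ℤ × ℤ) := ((Finset.Icc (-(N : ℤ)) N) ×ˢ (Finset.Icc (-(N : ℤ)) N)).filter (· ≠ 0)
  have hmem : ∀ w : ℤ × ℤ, w ≠ 0 → F A B C w ≤ A → w ∈ S := by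
    intro w hw hF
    simp only [F] at hF
    have e1 : 4 * A * (A * (w.1 : ℝ) ^ 2 + B * w.1 * w.2 + C * (w.2 : ℝ) ^ 2)
        = (2 * A * w.1 + B * w.2) ^ 2 + D * (w.2 : ℝ) ^ 2 := by rw [hDdef]; ring
    have e2 : 4 * C * (A * (w.1 : ℝ) ^ 2 + B * w.1 * w.2 + C * (w.2 : ℝ) ^ 2)
        = (2 * C * w.2 + B * w.1) ^ 2 + D * (w.1 : ℝ) ^ 2 := by rw [hDdef]; ring
    have f1 : D * (w.2 : ℝ) ^ 2 ≤ 4 * A * A := by
      have := mul_le_mul_of_nonneg_left hF (by positivity : 0 ≤ 4 * A)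
      nlinarith [sq_nonneg (2 * A * (w.1 : ℝ) + B * w.2)]
    have f2 : D * (w.1 : ℝ) ^ 2 ≤ 4 * C * A := by
      have := mul_le_mul_of_nonneg_left hF (by positivity : 0 ≤ 4 * C)
      nlinarith [sq_nonneg (2 * C * (w.2 : ℝ) + B * w.1)]
    have g1 : (w.2 : ℝ) ^ 2 ≤ N := by
      refine le_trans ?_ hN3
      rw [le_div_iff₀ hDpos]; linarith
    have g2 : (w.1 : ℝ) ^ 2 ≤ N := by
      refine le_trans ?_ hN2
      rw [le_div_iff₀ hDpos]; linarith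
    have h1 := int_abs_le_of_sq_le g1
    have h2 := int_abs_le_of_sq_le g2
    simp only [S, Finset.mem_filter, Finset.mem_product, Finset.mem_Icc]
    exact ⟨⟨h2, h1⟩, hw⟩
  have h10 : F A B C (1, 0) = A := by simp [F]
  have hne : S.Nonempty := ⟨(1, 0), hmem (1, 0) (by simp) h10.le⟩
  obtain ⟨v, hv, hmin⟩ := S.exists_min_image (F A B C) hne
  refine ⟨v, (Finset.mem_filter.1 hv).2, fun w hw => ?_⟩
  by_cases hF : F A B C w ≤ A
  · exact hmin w (hmem w hw hF)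
  · push Not at hF
    have := hmin (1, 0) (hmem (1, 0) (by simp) h10.le)
    linarith

lemma F_pos (A B C : ℝ) (hA : 0 < A) (hD : B ^ 2 < 4 * A * C) (v : ℤ × ℤ) (hv : v ≠ 0) :
    0 < F A B C v := by
  have e1 : 4 * A * F A B C v
      = (2 * A * v.1 + B * v.2) ^ 2 + (4 * A * C - B ^ 2) * (v.2 : ℝ) ^ 2 := by
    simp only [F]; ring
  by_cases h2 : v.2 = 0
  · have h1 : v.1 ≠ 0 := by
      intro h1
      exact hv (Prod.ext h1 h2)
    have : (v.1 : ℝ) ≠ 0 := by exact_mod_cast h1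
    simp only [F, h2]
    have := pow_pos hA 1
    have : 0 < (v.1 : ℝ) ^ 2 := by positivity
    simp
    positivity
  · have : (v.2 : ℝ) ≠ 0 := by exact_mod_cast h2
    have h3 : 0 < (v.2 : ℝ) ^ 2 := by positivity
    have h4 : 0 < (4 * A * C - B ^ 2) * (v.2 : ℝ) ^ 2 := mul_pos (by linarith) h3
    have h5 : 0 < 4 * A * F A B C v := by
      rw [e1]; nlinarith [sq_nonneg (2 * A * (v.1 : ℝ) + B * v.2)]
    exact (mul_pos_iff_of_pos_left (by positivity : 0 < 4 * A)).1 h5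

end RED

open RED in
/-- Reduction of positive definite binary forms. -/
theorem t_red : S_RED := by
  intro A B C hA hD
  obtain ⟨v, hv, hmin⟩ := exists_min A B C hA hD
  obtain ⟨p₁, q₁⟩ := v
  have hFpos := F_pos A B C hA hD _ hv
  have hcop : Int.gcd p₁ q₁ = 1 := by
    by_contra hg
    have hne : ¬ (p₁ = 0 ∧ q₁ = 0) := by
      rintro ⟨h1, h2⟩
      exact hv (Prod.ext h1 h2)
    have hg0 : Int.gcd p₁ q₁ ≠ 0 := by
      intro h
      exact hne (Int.gcd_eq_zero_iff.1 h)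
    have hg2 : 2 ≤ Int.gcd p₁ q₁ := by omega
    obtain ⟨p', hp'⟩ := Int.gcd_dvd_left (a := p₁) (b := q₁)
    obtain ⟨q', hq'⟩ := Int.gcd_dvd_right (a := p₁) (b := q₁)
    set g : ℕ := Int.gcd p₁ q₁ with hgdef
    have hw : ((p', q') : ℤ × ℤ) ≠ 0 := by
      intro h
      have h1 : p' = 0 := congrArg Prod.fst h
      have h2 : q' = 0 := congrArg Prod.snd h
      exact hne ⟨by rw [hp', h1, mul_zero], by rw [hq', h2, mul_zero]⟩
    have h1 := hmin _ hw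
    have h2 := F_pos A B C hA hD _ hw
    have hp'' : (p₁ : ℝ) = (g : ℝ) * p' := by exact_mod_cast hp'
    have hq'' : (q₁ : ℝ) = (g : ℝ) * q' := by exact_mod_cast hq'
    have h3 : F A B C (p₁, q₁) = (g : ℝ) ^ 2 * F A B C (p', q') := by
      simp only [F, hp'', hq'']; ring
    have hg2' : (2 : ℝ) ≤ g := by exact_mod_cast hg2
    rw [h3] at h1
    have h4 : (4 : ℝ) ≤ (g : ℝ) ^ 2 := by nlinarith
    nlinarith
  obtain ⟨a, b, hab⟩ := Int.isCoprime_iff_gcd_eq_one.2 hcop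
  -- a * p₁ + b * q₁ = 1
  have hFdef : F A B C (p₁, q₁) = A * (p₁ : ℝ) ^ 2 + B * p₁ * q₁ + C * (q₁ : ℝ) ^ 2 := rfl
  set f : ℝ := A * (p₁ : ℝ) ^ 2 + B * p₁ * q₁ + C * (q₁ : ℝ) ^ 2 with hf
  rw [hFdef] at hFpos
  set β : ℝ := 2 * A * p₁ * (-b : ℤ) + B * (p₁ * a + (-b : ℤ) * q₁) + 2 * C * q₁ * a with hβ
  set n : ℤ := round (β / (2 * f)) with hn
  have hround : |β / (2 * f) - n| ≤ 1 / 2 := abs_sub_round _
  have hβ2 : |β - 2 * n * f| ≤ f := by
    have h1 : β - 2 * n * f = (2 * f) * (β / (2 * f) - n) := by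
      field_simp
    rw [h1, abs_mul, abs_of_pos (by linarith : 0 < 2 * f)]
    nlinarith
  -- the vector
  have key : ∀ p₂ q₂ : ℤ, (p₁ * q₂ - p₂ * q₁ = 1 ∨ p₁ * q₂ - p₂ * q₁ = -1) →
      f ≤ A * (p₂ : ℝ) ^ 2 + B * p₂ * q₂ + C * (q₂ : ℝ) ^ 2 := by
    intro p₂ q₂ h
    have hw : ((p₂, q₂) : ℤ × ℤ) ≠ 0 := by
      intro h'
      have h1 : p₂ = 0 := congrArg Prod.fst h'
      have h2 : q₂ = 0 := congrArg Prod.snd h'
      rw [h1, h2] at h
      simp at h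
    have := hmin _ hw
    rw [hFdef] at this
    exact this
  have hdet : p₁ * (a - n * q₁) - (-b - n * p₁) * q₁ = 1 := by
    linear_combination hab
  have hdet' : p₁ * (-(a - n * q₁)) - (-(-b - n * p₁)) * q₁ = -1 := by
    linear_combination -hab
  have hval : 2 * A * p₁ * ((-b - n * p₁ : ℤ) : ℝ) + B * (p₁ * ((a - n * q₁ : ℤ) : ℝ)
      + ((-b - n * p₁ : ℤ) : ℝ) * q₁) + 2 * C * q₁ * ((a - n * q₁ : ℤ) : ℝ) = β - 2 * n * f := by
    rw [hβ, hf]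
    push_cast
    ring
  rcases le_total 0 (β - 2 * n * f) with h | h
  · refine ⟨p₁, q₁, -b - n * p₁, a - n * q₁, Or.inl hdet, ?_, ?_, key _ _ (Or.inl hdet)⟩
    · rw [hval]; exact h
    · rw [hval]; exact le_trans (le_abs_self _) hβ2
  · refine ⟨p₁, q₁, -(-b - n * p₁), -(a - n * q₁), Or.inr hdet', ?_, ?_, key _ _ (Or.inr hdet')⟩
    · have : 2 * A * p₁ * ((-(-b - n * p₁) : ℤ) : ℝ) + B * (p₁ * ((-(a - n * q₁) : ℤ) : ℝ)
          + ((-(-b - n * p₁) : ℤ) : ℝ) * q₁) + 2 * C * q₁ * ((-(a - n * q₁) : ℤ) : ℝ)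
          = -(β - 2 * n * f) := by
        rw [← hval]; push_cast; ring
      rw [this]; linarith
    · have : 2 * A * p₁ * ((-(-b - n * p₁) : ℤ) : ℝ) + B * (p₁ * ((-(a - n * q₁) : ℤ) : ℝ)
          + ((-(-b - n * p₁) : ℤ) : ℝ) * q₁) + 2 * C * q₁ * ((-(a - n * q₁) : ℤ) : ℝ)
          = -(β - 2 * n * f) := by
        rw [← hval]; push_cast; ring
      rw [this]; exact le_trans (neg_le_abs _) hβ2

end Pool.Agent.N217.EU
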