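import Mathlib
import Pool.Agent.N217.EU.Stm

/-! Project EU, step SP (helper622): the points `- b / (2 a)` with `A ≤ a < 2 A` are separated. -/

set_option autoImplicit false

namespace Pool.Agent.N217.EU

namespace SPaux

theorem key (a b a' b' : ℤ) (h : Ob a b) (h' : Ob a' b') (hne : (a, b) ≠ (a', b')) :
    10 * a * a' - 3 * a ^ 2 - 3 * a' ^ 2 ≤ (a * b' - a' * b) ^ 2 := by
  obtain ⟨ha, c, hc⟩ := h
  obtain ⟨ha', c', hc'⟩ := h'
  obtain ⟨D, hD⟩ : ∃ D : ℤ, D = 2 * a * c' + 2 * a' * c - b * b' := ⟨_, rfl⟩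
  have h1 : 2 * a * a' * D = (a * b' - a' * b) ^ 2 + 3 * (a ^ 2 + a' ^ 2) := by
    rw [hD]
    linear_combination (- a' ^ 2) * hc - a ^ 2 * hc'
  have hbo : b % 2 = 1 := by
    rcases Int.emod_two_eq_zero_or_one b with h0 | h0
    · exfalso
      obtain ⟨k, hk⟩ : (2 : ℤ) ∣ b := Int.dvd_of_emod_eq_zero h0
      rw [hk] at hc
      have : 4 * (a * c - k ^ 2) = 3 := by linear_combination -hc
      omega
    · exact h0
  have hbo' : b' % 2 = 1 := by
    rcases Int.emod_two_eq_zero_or_one b' with h0 | h0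
    · exfalso
      obtain ⟨k, hk⟩ : (2 : ℤ) ∣ b' := Int.dvd_of_emod_eq_zero h0
      rw [hk] at hc'
      have : 4 * (a' * c' - k ^ 2) = 3 := by linear_combination -hc'
      omega
    · exact h0
  have hDo : D % 2 = 1 := by
    obtain ⟨k, hk⟩ : ∃ k, b = 2 * k + 1 := ⟨b / 2, by omega⟩
    obtain ⟨k', hk'⟩ : ∃ k, b' = 2 * k + 1 := ⟨b' / 2, by omega⟩
    have : D = 2 * (a * c' + a' * c - 2 * k * k' - k - k' - 1) + 1 := by
      rw [hD, hk, hk']
      ring
    omega
  have haa : 0 < a * a' := by positivity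
  have hD3 : 3 ≤ D := by
    by_contra hlt
    push Not at hlt
    nlinarith [sq_nonneg (a * b' - a' * b), sq_nonneg (a - a')]
  have hD3' : D ≠ 3 := by
    intro h3
    rw [h3] at h1
    have h2 : (a * b' - a' * b) ^ 2 + 3 * (a - a') ^ 2 = 0 := by linear_combination -h1
    have h4 : (a - a') ^ 2 = 0 := by
      nlinarith [sq_nonneg (a * b' - a' * b), sq_nonneg (a - a')]
    have h5 : a = a' := by
      have := pow_eq_zero_iff (two_ne_zero) |>.1 h4
      linarith
    have h6 : (a * b' - a' * b) ^ 2 = 0 := by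
      rw [h4] at h2
      linarith
    have h7 := pow_eq_zero_iff (two_ne_zero) |>.1 h6
    rw [← h5] at h7
    have h8 : a * (b' - b) = 0 := by linear_combination h7
    rcases mul_eq_zero.1 h8 with h9 | h9
    · omega
    · apply hne
      rw [h5]
      have : b = b' := by linarith
      rw [this]
  have hD5 : 5 ≤ D := by omega
  nlinarith [mul_le_mul_of_nonneg_left hD5 haa.le]

theorem half (A : ℝ) (a b a' b' : ℤ) (hA : 0 < A) (h : Ob a b) (h' : Ob a' b') (h1 : A ≤ a)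
    (h2 : (a' : ℝ) < 2 * A) (hle : a ≤ a') (hne : (a, b) ≠ (a', b')) :
    1 / (2 * A) ≤ |-(b : ℝ) / (2 * a) - (-(b' : ℝ) / (2 * a'))| := by
  have hk := key a b a' b' h h' hne
  have hk' : 10 * (a : ℝ) * a' - 3 * (a : ℝ) ^ 2 - 3 * (a' : ℝ) ^ 2 ≤
      ((a : ℝ) * b' - a' * b) ^ 2 := by exact_mod_cast hk
  have hle' : (a : ℝ) ≤ a' := by exact_mod_cast hle
  have ha : (0 : ℝ) < a := by linarith
  have ha' : (0 : ℝ) < a' := by linarith
  have h3 : (2 * (a : ℝ)) ^ 2 ≤ ((a : ℝ) * b' - a' * b) ^ 2 := by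
    refine le_trans ?_ hk'
    nlinarith [mul_nonneg (sub_nonneg.2 hle') (show (0 : ℝ) ≤ 7 * a - 3 * a' by linarith)]
  have h4 : 2 * (a : ℝ) ≤ |(a : ℝ) * b' - a' * b| := by
    have := sq_le_sq.1 h3
    rwa [abs_of_pos (by positivity)] at this
  have h5 : -(b : ℝ) / (2 * a) - (-(b' : ℝ) / (2 * a')) =
      ((a : ℝ) * b' - a' * b) / (2 * a * a') := by
    field_simp
    ring
  rw [h5, abs_div, abs_of_pos (show (0 : ℝ) < 2 * a * a' by positivity), div_le_div_iff₀
    (by positivity) (by positivity)]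
  nlinarith [mul_pos ha ha', mul_pos ha hA, mul_le_mul_of_nonneg_right h4 hA.le]

end SPaux

theorem t_sp : S_SP := by
  intro A a b a' b' hA h h' h1 h2 h1' h2' hne
  rcases le_total a a' with hle | hle
  · exact SPaux.half A a b a' b' hA h h' h1 h2' hle hne
  · rw [abs_sub_comm]
    exact SPaux.half A a' b' a b hA h' h h1' h2 hle hne.symm

end Pool.Agent.N217.EU
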