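import Pool.Agent.N217.EU.Stm

set_option autoImplicit false

/-! Project EU (helper217), leaf SPE: the special step (helper300). -/

namespace Pool.Agent.N217.EU

open Set

namespace SPE_

/-- the new interval is close to `p / q` -/
lemma near {R l m : ℕ} {k C' T q c : ℝ} (hk : 0 < k) (hC : 1 ≤ C') (hT : 1 ≤ T) (hq : 0 < q)
    (hq2 : q ^ 2 ≤ C' * T) (hR : (R : ℝ) ^ (l + m) = T * (k * C') / 64) {x : ℝ}
    (hx : x ∈ Iv R (l + m) (c + 1 / (k * q ^ 2))) :
    1 / (k * q ^ 2) ≤ x - c ∧ x - c ≤ 2 / (k * q ^ 2) := by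
  unfold Iv at hx
  obtain ⟨h1, h2⟩ := hx
  rw [hR] at h2
  have h3 : 1 / 64 / (T * (k * C') / 64) ≤ 1 / (k * q ^ 2) := by
    have h4 : 1 / 64 / (T * (k * C') / 64) = 1 / (T * (k * C')) := by
      field_simp
    rw [h4]
    refine one_div_le_one_div_of_le (by positivity) ?_
    calc k * q ^ 2 ≤ k * (C' * T) := by gcongr
      _ = T * (k * C') := by ring
  have h5 : 2 / (k * q ^ 2) = 1 / (k * q ^ 2) + 1 / (k * q ^ 2) := by ring
  constructor
  · linarith
  · rw [h5]
    linarith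

/-- distance of distinct rational numbers -/
lemma dist_rat {p q p' q' : ℤ} (hq : 1 ≤ q) (hq' : 1 ≤ q') (h : p' * q ≠ p * q') :
    1 / ((q : ℝ) * q') ≤ |(p : ℝ) / q - p' / q'| := by
  have hqr : (0 : ℝ) < q := by exact_mod_cast (by omega : 0 < q)
  have hqr' : (0 : ℝ) < q' := by exact_mod_cast (by omega : 0 < q')
  have h1 : (p : ℝ) / q - p' / q' = ((p * q' - p' * q : ℤ) : ℝ) / (q * q') := by
    push_cast
    field_simp
  rw [h1, abs_div, abs_of_pos (mul_pos hqr hqr')]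
  refine div_le_div_of_nonneg_right ?_ (by positivity)
  have h2 : 1 ≤ |p * q' - p' * q| := Int.one_le_abs (fun h3 => h (by linarith))
  exact_mod_cast h2

end SPE_

open SPE_ in
/-- the special step -/
theorem t_spe (h1 : S_DIR) (h2 : S_CND) (h3 : S_AVO) : S_SPE := by
  intro R hR ε₁ hε₁ hε₁1
  have hC1 : (1 : ℝ) ≤ (512 / ε₁) ^ 2 := by
    have : (1 : ℝ) ≤ 512 / ε₁ := by
      rw [le_div_iff₀ hε₁]
      linarith
    nlinarith
  obtain ⟨C', ε₀, hC', hε₀, hε₀2, hcnd⟩ := h2 _ hC1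
  refine ⟨ε₀, hε₀, fun k₀ => ?_⟩
  have hR1 : (1 : ℝ) < R := by exact_mod_cast (by omega : 1 < R)
  have hC0 : 0 < C' := by linarith
  obtain ⟨n, hn⟩ := pow_unbounded_of_one_lt
    ((1024 + C' + 6 / ε₀ + 2 * ((k₀ : ℝ) + 1)) * C' / 64) hR1
  obtain ⟨k, hkd⟩ : ∃ k : ℝ, k = 64 * (R : ℝ) ^ (n + 1) / C' := ⟨_, rfl⟩
  have hkC : k * C' = 64 * (R : ℝ) ^ (n + 1) := by
    rw [hkd]
    field_simp
  have hkK : 1024 + C' + 6 / ε₀ + 2 * ((k₀ : ℝ) + 1) ≤ k := by
    have e1 : (R : ℝ) ^ n ≤ (R : ℝ) ^ (n + 1) := pow_le_pow_right₀ hR1.le (by omega)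
    have e2 : (1024 + C' + 6 / ε₀ + 2 * ((k₀ : ℝ) + 1)) * C' ≤ k * C' := by
      rw [hkC]
      linarith
    exact le_of_mul_le_mul_right e2 hC0
  have h6e : 0 < 6 / ε₀ := by positivity
  have hk₀ : (0 : ℝ) ≤ k₀ := Nat.cast_nonneg _
  have hk1024 : 1024 ≤ k := by linarith
  have hkC' : C' ≤ k := by linarith
  have hk6 : 6 / ε₀ ≤ k := by linarith
  have hk2 : 2 * ((k₀ : ℝ) + 1) ≤ k := by linarith
  have hk0 : 0 < k := by linarith
  refine ⟨n + 1, min ε₁ (min (1 / k) (1 / (2 * C'))), by omega, by positivity, ?_⟩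
  intro ε₂ hε₂ hε₂0 l lam ξ y hlam hξ hξR hInv
  obtain ⟨T, hT⟩ : ∃ T : ℝ, T = (R : ℝ) ^ l := ⟨_, rfl⟩
  have hT1 : 1 ≤ T := by
    rw [hT]
    exact one_le_pow₀ hR1.le
  have hT0 : 0 < T := by linarith
  obtain ⟨p₀, q₀, hq₀, hcop₀, hq₀1, hq₀2, hmid⟩ := h1 ε₁ ε₂ R l lam ξ y hε₁ hε₁1 hR hξ hξR hInv
  rw [← hT] at hq₀1 hq₀2 hmid
  obtain ⟨p, q, hq, hcop, hq1, hq2, hpq, hobs⟩ := hcnd T p₀ q₀ hT1 hq₀ hcop₀ hq₀1 hq₀2
  have hqr : (0 : ℝ) < q := by exact_mod_cast (by omega : 0 < q)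
  have hRlm : (R : ℝ) ^ (l + (n + 1)) = T * (k * C') / 64 := by
    rw [hkC, pow_add, hT]
    ring
  have hnear : ∀ x ∈ Iv R (l + (n + 1)) ((p : ℝ) / q + 1 / (k * (q : ℝ) ^ 2)),
      1 / (k * (q : ℝ) ^ 2) ≤ x - p / q ∧ x - p / q ≤ 2 / (k * (q : ℝ) ^ 2) := fun x hx =>
    near hk0 hC' hT1 hqr hq2 hRlm hx
  have hδ0 : 0 < 1 / (k * (q : ℝ) ^ 2) := by positivity
  have habs : ∀ x ∈ Iv R (l + (n + 1)) ((p : ℝ) / q + 1 / (k * (q : ℝ) ^ 2)),
      |x - p / q| ≤ 2 / (k * (q : ℝ) ^ 2) := fun x hx => by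
    obtain ⟨e1, e2⟩ := hnear x hx
    rw [abs_of_nonneg (by linarith)]
    exact e2
  have hδ : 2 / (k * (q : ℝ) ^ 2) ≤ 1 / 512 / T := by
    rw [div_div, div_le_div_iff₀ (by positivity) (by positivity)]
    calc 2 * (512 * T) = 1024 * T := by ring
      _ ≤ k * (q : ℝ) ^ 2 := by gcongr
      _ = 1 * (k * (q : ℝ) ^ 2) := by ring
  have hsub : Iv R (l + (n + 1)) ((p : ℝ) / q + 1 / (k * (q : ℝ) ^ 2)) ⊆ Iv R l y := by
    intro x hx
    have e1 := abs_le.1 (habs x hx)
    have e2 := abs_le.1 hpq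
    have e3 := abs_le.1 hmid
    have e4 : 1 / 256 / T = 2 * (1 / 512 / T) := by ring
    have e5 : 1 / 128 / T = 4 * (1 / 512 / T) := by ring
    have e6 : 1 / 64 / T = 8 * (1 / 512 / T) := by ring
    unfold Iv
    rw [← hT, e6]
    rw [e4, e5] at e3
    constructor
    · linarith [e1.1, e2.1, e3.2]
    · linarith [e1.2, e2.2, e3.1]
  refine ⟨(p : ℝ) / q + 1 / (k * (q : ℝ) ^ 2), ⟨?_, ?_, ?_⟩, hsub, p, q, hq, ?_⟩
  · intro a b hab ha x hx
    rcases lt_or_ge (a : ℝ) T with haT | haT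
    · rw [hT] at haT
      exact hInv.ob a b hab haT x (hsub hx)
    · refine hε₂0.trans (h3 T k ε₀ p q hε₀ hε₀2 hq hcop hk6 hobs x (habs x hx) a b hab haT ?_)
      rw [hRlm] at ha
      calc (a : ℝ) ≤ T * (k * C') / 64 := ha.le
        _ ≤ (q : ℝ) ^ 2 * (k * k) / 64 := by gcongr
        _ ≤ k ^ 2 * (q : ℝ) ^ 2 / 32 := by
          have : 0 ≤ (q : ℝ) ^ 2 * (k * k) := by positivity
          nlinarith
  · intro p' q' hq' hq'2 x hx
    have hqr' : (0 : ℝ) < q' := by exact_mod_cast (by omega : 0 < q')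
    have hq2' : (0 : ℝ) < (q' : ℝ) ^ 2 := by positivity
    have hmin : min ε₁ (min (1 / k) (1 / (2 * C'))) ≤ 1 / k :=
      (min_le_right _ _).trans (min_le_left _ _)
    have hmin2 : min ε₁ (min (1 / k) (1 / (2 * C'))) ≤ 1 / (2 * C') :=
      (min_le_right _ _).trans (min_le_right _ _)
    rcases lt_or_ge ((q' : ℝ) ^ 2) ((R : ℝ) ^ lam) with c1 | c1
    · refine le_trans ?_ (hInv.lo p' q' hq' c1 x (hsub hx))
      exact div_le_div_of_nonneg_right (min_le_left _ _) hq2'.le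
    · rcases lt_or_ge ((q' : ℝ) ^ 2) ((R : ℝ) ^ l) with c2 | c2
      · refine le_trans ?_ (hInv.hi p' q' hq' c1 c2 x (hsub hx))
        exact div_le_div_of_nonneg_right ((min_le_right _ _).trans (min_le_left _ _)) hq2'.le
      · rw [← hT] at c2
        refine le_trans (div_le_div_of_nonneg_right (min_le_right _ _) hq2'.le) ?_
        by_cases hpp : p' * q = p * q'
        · -- the same rational number
          have hdvd : q ∣ q' := by
            have e1 : q ∣ p * q' := ⟨p', by rw [← hpp]; ring⟩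
            exact hcop.symm.dvd_of_dvd_mul_left e1
          have hle : q ≤ q' := Int.le_of_dvd (by omega) hdvd
          have hler : (q : ℝ) ≤ q' := by exact_mod_cast hle
          have e2 : (p' : ℝ) / q' = p / q := by
            have : (p' : ℝ) * q = p * q' := by exact_mod_cast hpp
            rw [div_eq_div_iff hqr'.ne' hqr.ne']
            exact this
          rw [e2]
          obtain ⟨e3, -⟩ := hnear x hx
          refine le_trans ?_ (e3.trans (le_abs_self _))
          calc min ε₁ (min (1 / k) (1 / (2 * C'))) / (q' : ℝ) ^ 2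
              ≤ (1 / k) / (q : ℝ) ^ 2 := by gcongr
            _ = 1 / (k * (q : ℝ) ^ 2) := by rw [div_div]
        · have e1 := dist_rat hq hq' hpp
          have e2 := habs x hx
          -- `q' ≤ k q / 4`
          have e3 : 4 * (q' : ℝ) ≤ k * q := by
            rw [hRlm] at hq'2
            have e4 : (q' : ℝ) ^ 2 ≤ (k * q / 8) ^ 2 := by
              calc (q' : ℝ) ^ 2 ≤ T * (k * C') / 64 := hq'2.le
                _ ≤ (q : ℝ) ^ 2 * (k * k) / 64 := by gcongr
                _ = (k * q / 8) ^ 2 := by ring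
            have e5 : (q' : ℝ) ≤ k * q / 8 := le_of_sq_le_sq e4 (by positivity)
            have e6 : 0 ≤ k * q := by positivity
            linarith
          have e4 : 2 / (k * (q : ℝ) ^ 2) ≤ 1 / (2 * (q * q')) := by
            rw [div_le_div_iff₀ (by positivity) (by positivity)]
            calc 2 * (2 * (q * q')) = q * (4 * (q' : ℝ)) := by ring
              _ ≤ q * (k * q) := by gcongr
              _ = 1 * (k * (q : ℝ) ^ 2) := by ring
          have e5 : (q : ℝ) ≤ C' * q' := by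
            refine le_of_sq_le_sq ?_ (by positivity)
            calc (q : ℝ) ^ 2 ≤ C' * T := hq2
              _ ≤ C' * (q' : ℝ) ^ 2 := by gcongr
              _ ≤ C' * (C' * (q' : ℝ) ^ 2) := by
                have : 1 * (q' : ℝ) ^ 2 ≤ C' * (q' : ℝ) ^ 2 := by gcongr
                rw [one_mul] at this
                gcongr
              _ = (C' * q') ^ 2 := by ring
          have e6 : min ε₁ (min (1 / k) (1 / (2 * C'))) / (q' : ℝ) ^ 2 ≤ 1 / (2 * (q * q')) := by
            calc min ε₁ (min (1 / k) (1 / (2 * C'))) / (q' : ℝ) ^ 2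
                ≤ 1 / (2 * C') / (q' : ℝ) ^ 2 := by gcongr
              _ = 1 / (2 * (C' * q') * q') := by
                rw [div_div]
                congr 1
                ring
              _ ≤ 1 / (2 * (q * q')) := by
                refine one_div_le_one_div_of_le (by positivity) ?_
                nlinarith
          have e7 : 1 / ((q : ℝ) * q') = 1 / (2 * (q * q')) + 1 / (2 * (q * q')) := by
            field_simp
            norm_num
          have e8 : |(p : ℝ) / q - p' / q'| ≤ |x - p' / q'| + |x - p / q| := by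
            have : (p : ℝ) / q - p' / q' = (x - p' / q') - (x - p / q) := by ring
            rw [this]
            exact abs_sub _ _
          linarith
  · intro p' q' _ h5 h6
    exact absurd (lt_of_le_of_lt h5 h6) (lt_irrefl _)
  · intro x hx
    have e1 := habs x hx
    have e2 : |(q : ℝ) * x - p| = q * |x - p / q| := by
      have : (q : ℝ) * x - p = q * (x - p / q) := by
        field_simp
      rw [this, abs_mul, abs_of_pos hqr]
    rw [e2]
    calc (q : ℝ) * |x - p / q| * q ≤ q * (2 / (k * (q : ℝ) ^ 2)) * q := by gcongr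
      _ = 2 / k := by field_simp
      _ ≤ 1 / ((k₀ : ℝ) + 1) := by
        rw [div_le_div_iff₀ hk0 (by positivity)]
        linarith

end Pool.Agent.N217.EU
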